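import Pool.Agent.H.MP_4bcbbd_co.h39f.Avg

/-!
MP_4bcbbd_co, theorem G: the variance inequality of Efron and Stein on the cube of the sign patterns.
-/

set_option autoImplicit false

namespace Pool.Agent.H.MP_4bcbbd_co.G

open scoped BigOperators RealInnerProductSpace
open Pool.Agent.H.MP_4bcbbd_co.F

/-- the mean over the sign patterns. -/
noncomputable def mA (B : Finset ℕ) (f : Finset ℕ → ℝ) : ℝ :=
  (∑ A ∈ B.powerset, f A) / 2 ^ B.card

/-- the pattern with the sign of `k` changed. -/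
def fl (k : ℕ) (A : Finset ℕ) : Finset ℕ := if k ∈ A then A.erase k else insert k A

theorem mA_mono {B : Finset ℕ} {f g : Finset ℕ → ℝ} (h : ∀ A ∈ B.powerset, f A ≤ g A) :
    mA B f ≤ mA B g := by
  unfold mA
  exact div_le_div_of_nonneg_right (Finset.sum_le_sum h) (by positivity)

theorem mA_const (B : Finset ℕ) (a : ℝ) : mA B (fun _ => a) = a := by
  unfold mA
  rw [Finset.sum_const, Finset.card_powerset, nsmul_eq_mul]
  push_cast
  field_simp

theorem mA_add (B : Finset ℕ) (f g : Finset ℕ → ℝ) :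
    mA B (fun A => f A + g A) = mA B f + mA B g := by
  unfold mA
  rw [Finset.sum_add_distrib, add_div]

theorem mA_mul (B : Finset ℕ) (a : ℝ) (f : Finset ℕ → ℝ) :
    mA B (fun A => a * f A) = a * mA B f := by
  unfold mA
  rw [← Finset.mul_sum, mul_div_assoc]

theorem mA_sum {κ : Type} (K : Finset κ) (B : Finset ℕ) (f : κ → Finset ℕ → ℝ) :
    mA B (fun A => ∑ k ∈ K, f k A) = ∑ k ∈ K, mA B (f k) := by
  unfold mA
  rw [Finset.sum_comm, Finset.sum_div]

theorem mA_congr {B : Finset ℕ} {f g : Finset ℕ → ℝ} (h : ∀ A ∈ B.powerset, f A = g A) :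
    mA B f = mA B g := by
  unfold mA
  rw [Finset.sum_congr rfl h]

theorem fl_mem {B : Finset ℕ} {k : ℕ} (hk : k ∈ B) {A : Finset ℕ} (hA : A ∈ B.powerset) :
    fl k A ∈ B.powerset := by
  rw [Finset.mem_powerset] at hA ⊢
  unfold fl
  split
  · exact (Finset.erase_subset _ _).trans hA
  · exact Finset.insert_subset hk hA

theorem fl_fl (k : ℕ) (A : Finset ℕ) : fl k (fl k A) = A := by
  unfold fl
  by_cases hk : k ∈ A
  · rw [if_pos hk, if_neg (Finset.notMem_erase k A), Finset.insert_erase hk]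
  · rw [if_neg hk, if_pos (Finset.mem_insert_self k A), Finset.erase_insert hk]

theorem mA_fl {B : Finset ℕ} {k : ℕ} (hk : k ∈ B) (f : Finset ℕ → ℝ) :
    mA B (fun A => f (fl k A)) = mA B f := by
  unfold mA
  congr 1
  exact Finset.sum_nbij' (fl k) (fl k) (fun A hA => fl_mem hk hA) (fun A hA => fl_mem hk hA)
    (fun A _ => fl_fl k A) (fun A _ => fl_fl k A) (fun A _ => rfl)

/-- one more sign. -/
theorem mA_insert {B : Finset ℕ} {k : ℕ} (hk : k ∉ B) (f : Finset ℕ → ℝ) :
    mA (insert k B) f = (mA B f + mA B (fun A => f (insert k A))) / 2 := by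
  unfold mA
  rw [Finset.sum_powerset_insert hk, Finset.card_insert_of_notMem hk, pow_succ]
  field_simp

/-- two disjoint blocks of signs. PROOF: induction on `S` with `mA_insert`. -/
theorem mA_union {L S : Finset ℕ} (h : Disjoint L S) (f : Finset ℕ → ℝ) :
    mA (L ∪ S) f = mA L (fun A₁ => mA S (fun A₂ => f (A₁ ∪ A₂))) := by
  classical
  induction S using Finset.induction_on generalizing f with
  | empty =>
    rw [Finset.union_empty]
    apply mA_congr
    intro A _
    rw [show (fun A₂ : Finset ℕ => f (A ∪ A₂)) = fun A₂ => f (A ∪ A₂) from rfl]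
    unfold mA
    simp
  | insert k S hk ih =>
    rw [Finset.disjoint_insert_right] at h
    have hk' : k ∉ L ∪ S := by
      rw [Finset.mem_union]
      rintro (h1 | h1)
      · exact h.1 h1
      · exact hk h1
    rw [Finset.union_insert, mA_insert hk', ih h.2, ih h.2 (fun A => f (insert k A))]
    have e : mA L (fun A₁ => mA (insert k S) (fun A₂ => f (A₁ ∪ A₂))) =
        mA L (fun A₁ => 1 / 2 * (mA S (fun A₂ => f (A₁ ∪ A₂)) +
          mA S (fun A₂ => f (insert k (A₁ ∪ A₂))))) := by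
      apply mA_congr
      intro A₁ _
      rw [mA_insert hk]
      have e2 : mA S (fun A => f (A₁ ∪ insert k A)) = mA S (fun A₂ => f (insert k (A₁ ∪ A₂))) :=
        mA_congr (fun A _ => by rw [Finset.union_insert])
      rw [e2]
      ring
    rw [e, mA_mul, mA_add]
    ring

/-- Cauchy-Schwarz. -/
theorem mA_sq_le (B : Finset ℕ) (f : Finset ℕ → ℝ) : mA B f ^ 2 ≤ mA B (fun A => f A ^ 2) := by
  unfold mA
  rw [div_pow, div_le_div_iff₀ (by positivity) (by positivity)]
  have h := sq_sum_le_card_mul_sum_sq (s := B.powerset) (f := f)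
  rw [Finset.card_powerset] at h
  push_cast at h
  have h2 : (0 : ℝ) < 2 ^ B.card := by positivity
  calc (∑ A ∈ B.powerset, f A) ^ 2 * 2 ^ B.card
      ≤ (2 ^ B.card * ∑ A ∈ B.powerset, f A ^ 2) * 2 ^ B.card :=
        mul_le_mul_of_nonneg_right h h2.le
    _ = (∑ A ∈ B.powerset, f A ^ 2) * (2 ^ B.card) ^ 2 := by ring

theorem mA_abs_le (B : Finset ℕ) (f : Finset ℕ → ℝ) :
    mA B (fun A => |f A|) ≤ Real.sqrt (mA B (fun A => f A ^ 2)) := by
  apply Real.le_sqrt_of_sq_le
  refine (mA_sq_le B _).trans (le_of_eq ?_)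
  exact mA_congr (fun A _ => sq_abs (f A))

theorem mA_sqrt_le (B : Finset ℕ) {f : Finset ℕ → ℝ} (h : ∀ A ∈ B.powerset, 0 ≤ f A) :
    mA B (fun A => Real.sqrt (f A)) ≤ Real.sqrt (mA B f) := by
  apply Real.le_sqrt_of_sq_le
  refine (mA_sq_le B _).trans (le_of_eq ?_)
  exact mA_congr (fun A hA => Real.sq_sqrt (h A hA))

theorem cube_fl_notMem {k : ℕ} {A : Finset ℕ} (h : k ∉ A) : fl k A = insert k A := if_neg h

theorem cube_fl_insert {k : ℕ} {A : Finset ℕ} (h : k ∉ A) : fl k (insert k A) = A := by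
  unfold fl
  rw [if_pos (Finset.mem_insert_self k A), Finset.erase_insert h]

theorem cube_fl_insert_ne {j k : ℕ} (h : j ≠ k) (A : Finset ℕ) :
    fl j (insert k A) = insert k (fl j A) := by
  unfold fl
  by_cases hj : j ∈ A
  · rw [if_pos hj, if_pos (Finset.mem_insert_of_mem hj), Finset.erase_insert_of_ne h.symm]
  · rw [if_neg hj, if_neg (fun h2 => (Finset.mem_insert.mp h2).elim h hj), Finset.insert_comm]

theorem cube_shift (B : Finset ℕ) (f : Finset ℕ → ℝ) (c : ℝ) :
    mA B (fun A => (f A - c) ^ 2) = mA B (fun A => (f A - mA B f) ^ 2) + (mA B f - c) ^ 2 := by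
  have e : ∀ A, (f A - c) ^ 2 =
      (f A - mA B f) ^ 2 + (2 * (mA B f - c) * f A + (c ^ 2 - mA B f ^ 2)) := fun A => by ring
  rw [mA_congr (fun A _ => e A), mA_add, mA_add, mA_mul, mA_const]
  ring

theorem cube_var {B : Finset ℕ} {k : ℕ} (hk : k ∉ B) (f : Finset ℕ → ℝ) :
    mA (insert k B) (fun A => (f A - mA (insert k B) f) ^ 2) =
      (mA B (fun A => (f A - mA B f) ^ 2) +
        mA B (fun A => (f (insert k A) - mA B (fun A => f (insert k A))) ^ 2)) / 2 +
      (mA B f - mA B (fun A => f (insert k A))) ^ 2 / 4 := by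
  rw [mA_insert hk (fun A => (f A - mA (insert k B) f) ^ 2), cube_shift B f,
    cube_shift B (fun A => f (insert k A)), mA_insert hk f]
  ring

/-- PROOF: induction on `B`. With `f₀ A = f A`, `f₁ A = f (insert k A)`: the variance of `f` on `insert k B` is
`(V f₀ + V f₁) / 2 + (mean f₀ - mean f₁) ^ 2 / 4`, and `(mean f₀ - mean f₁) ^ 2 ≤ mean (f₀ - f₁) ^ 2` (`mA_sq_le`), which is the term of
`k` (`|f A - f (fl k A)| = |f₀ - f₁|` in both halves). -/
theorem efron (B : Finset ℕ) (f : Finset ℕ → ℝ) :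
    mA B (fun A => (f A - mA B f) ^ 2) ≤
      1 / 4 * ∑ k ∈ B, mA B (fun A => (f A - f (fl k A)) ^ 2) := by
  classical
  induction B using Finset.induction_on generalizing f with
  | empty =>
    simp [mA]
  | insert k B hk ih =>
    set f₀ : Finset ℕ → ℝ := f with hf₀
    set f₁ : Finset ℕ → ℝ := fun A => f (insert k A) with hf₁
    have hM : mA (insert k B) f = (mA B f₀ + mA B f₁) / 2 := mA_insert hk f
    have hV := cube_var hk f
    have hk1 : mA (insert k B) (fun A => (f A - f (fl k A)) ^ 2) =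
        mA B (fun A => (f₀ A - f₁ A) ^ 2) := by
      rw [mA_insert hk]
      have e1 : mA B (fun A => (f A - f (fl k A)) ^ 2) = mA B (fun A => (f₀ A - f₁ A) ^ 2) :=
        mA_congr (fun A hA => by
          rw [cube_fl_notMem (fun h => hk (Finset.mem_powerset.mp hA h))])
      have e2 : mA B (fun A => (f (insert k A) - f (fl k (insert k A))) ^ 2) =
          mA B (fun A => (f₀ A - f₁ A) ^ 2) :=
        mA_congr (fun A hA => by
          rw [cube_fl_insert (fun h => hk (Finset.mem_powerset.mp hA h))]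
          ring)
      rw [e1, e2]
      ring
    have hj : ∀ j ∈ B, mA (insert k B) (fun A => (f A - f (fl j A)) ^ 2) =
        (mA B (fun A => (f₀ A - f₀ (fl j A)) ^ 2) +
          mA B (fun A => (f₁ A - f₁ (fl j A)) ^ 2)) / 2 := by
      intro j hj
      rw [mA_insert hk]
      have hjk : j ≠ k := fun h => hk (h ▸ hj)
      have e2 : mA B (fun A => (f (insert k A) - f (fl j (insert k A))) ^ 2) =
          mA B (fun A => (f₁ A - f₁ (fl j A)) ^ 2) :=
        mA_congr (fun A _ => by rw [cube_fl_insert_ne hjk])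
      rw [e2]
    rw [Finset.sum_insert hk, hk1, Finset.sum_congr rfl hj, ← Finset.sum_div,
      Finset.sum_add_distrib, hV]
    have i0 := ih f₀
    have i1 := ih f₁
    have i2 : (mA B f₀ - mA B f₁) ^ 2 ≤ mA B (fun A => (f₀ A - f₁ A) ^ 2) := by
      have e : mA B f₀ - mA B f₁ = mA B (fun A => f₀ A - f₁ A) := by
        unfold mA
        rw [Finset.sum_sub_distrib, sub_div]
      rw [e]
      exact mA_sq_le B _
    linarith

/-- the one-sided form. PROOF: `efron`; `(f A - f (fl k A)) ^ 2 ≤ g k A ^ 2 + g k (fl k A) ^ 2` (one of the two differences `f A - f (fl k A)`,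
`f (fl k A) - f A` is `≥ 0`), and `mA_fl`. -/
theorem efron_pos {B : Finset ℕ} {f : Finset ℕ → ℝ} {g : ℕ → Finset ℕ → ℝ}
    (h : ∀ k ∈ B, ∀ A ∈ B.powerset, f A - f (fl k A) ≤ g k A) :
    mA B (fun A => (f A - mA B f) ^ 2) ≤ 1 / 2 * ∑ k ∈ B, mA B (fun A => g k A ^ 2) := by
  have h1 := efron B f
  have h2 : ∀ k ∈ B, mA B (fun A => (f A - f (fl k A)) ^ 2) ≤ 2 * mA B (fun A => g k A ^ 2) := by
    intro k hk
    have h3 : mA B (fun A => (f A - f (fl k A)) ^ 2) ≤
        mA B (fun A => g k A ^ 2 + g k (fl k A) ^ 2) := by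
      apply mA_mono
      intro A hA
      have ha := h k hk A hA
      have hb := h k hk (fl k A) (fl_mem hk hA)
      rw [fl_fl] at hb
      rcases le_total (f (fl k A)) (f A) with hc | hc
      · nlinarith [sq_nonneg (g k (fl k A))]
      · nlinarith [sq_nonneg (g k A)]
    rw [mA_add, mA_fl hk (fun A => g k A ^ 2)] at h3
    linarith
  have h4 : ∑ k ∈ B, mA B (fun A => (f A - f (fl k A)) ^ 2) ≤
      ∑ k ∈ B, 2 * mA B (fun A => g k A ^ 2) := Finset.sum_le_sum h2
  rw [← Finset.mul_sum] at h4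
  linarith

end Pool.Agent.H.MP_4bcbbd_co.G
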