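import Pool.Agent.H.MP_4bcbbd_co.h39f.Gauss

/-!
MP_4bcbbd_co, theorem G: exponential moments of the standard Gaussian measure.
-/

set_option autoImplicit false

namespace Pool.Agent.H.MP_4bcbbd_co.G

open scoped BigOperators RealInnerProductSpace
open Pool.Agent.H.MP_4bcbbd_co.F
open MeasureTheory

theorem exp_neg_le {s : ℝ} (hs : 0 ≤ s) : Real.exp (-s) ≤ 1 - s + s ^ 2 / 2 := by
  have h1 := Real.quadratic_le_exp_of_nonneg hs
  have h2 : 0 < 1 - s + s ^ 2 / 2 := by nlinarith [sq_nonneg (s - 1)]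
  have h3 : 1 ≤ (1 - s + s ^ 2 / 2) * Real.exp s := by
    have h4 : (1 - s + s ^ 2 / 2) * (1 + s + s ^ 2 / 2) ≤ (1 - s + s ^ 2 / 2) * Real.exp s :=
      mul_le_mul_of_nonneg_left h1 h2.le
    nlinarith [pow_nonneg hs 4]
  rw [Real.exp_neg, inv_eq_one_div, div_le_iff₀ (Real.exp_pos s)]
  exact h3

theorem exp_law {c : ℕ} (u : E c) : (gam c).map (fun x => ⟪u, x⟫) =
    (ProbabilityTheory.gaussianReal 0 1).map (fun t => ‖u‖ * t) := by
  rw [gam_eq]
  exact D7u.gb_law u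

theorem exp_int_abs {c : ℕ} (u : E c) : Integrable (fun x : E c => |⟪u, x⟫|) (gam c) := by
  refine ((integrable_norm_gam c).const_mul ‖u‖).mono' (by fun_prop) ?_
  refine Filter.Eventually.of_forall fun x => ?_
  rw [Real.norm_eq_abs, abs_abs]
  exact abs_real_inner_le_norm u x

theorem exp_int_sq {c : ℕ} (u : E c) : Integrable (fun x : E c => ⟪u, x⟫ ^ 2) (gam c) := by
  rw [gam_eq]
  exact D7u.gb_integrable_sq u

/-- PROOF: `exp (-t) ≤ 1 - t + t ^ 2 / 2` for `t ≥ 0`, `int_abs_inner`, `int_inner_sq`, `1 + x ≤ exp x`. -/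
theorem exp_low {c : ℕ} {u : E c} (hu : ‖u‖ = 1) {l : ℝ} (hl : 0 ≤ l) :
    ∫ x, Real.exp (-(l * |⟪u, x⟫|)) ∂(gam c) ≤
      Real.exp (-(l * Real.sqrt (2 / Real.pi)) + l ^ 2 / 2) := by
  have e1 : ∫ x : E c, |⟪u, x⟫| ∂(gam c) = Real.sqrt (2 / Real.pi) := by
    have h := int_abs_inner u
    rw [hu, mul_one] at h
    rw [← h]
    refine integral_congr_ae (Filter.Eventually.of_forall fun x => ?_)
    simp only [real_inner_comm]
  have e2 : ∫ x : E c, ⟪u, x⟫ ^ 2 ∂(gam c) = 1 := by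
    have h := int_inner_sq u
    rw [hu, one_pow] at h
    rw [← h]
    refine integral_congr_ae (Filter.Eventually.of_forall fun x => ?_)
    simp only [real_inner_comm]
  have i1 : Integrable (fun x : E c => l * |⟪u, x⟫|) (gam c) := (exp_int_abs u).const_mul l
  have i2 : Integrable (fun x : E c => l ^ 2 / 2 * ⟪u, x⟫ ^ 2) (gam c) :=
    (exp_int_sq u).const_mul _
  have i0 : Integrable (fun _ : E c => (1 : ℝ)) (gam c) := integrable_const 1
  have i01 : Integrable (fun x : E c => 1 - l * |⟪u, x⟫|) (gam c) := i0.sub i1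
  have i3 : Integrable (fun x : E c => 1 - l * |⟪u, x⟫| + l ^ 2 / 2 * ⟪u, x⟫ ^ 2) (gam c) :=
    i01.add i2
  have i4 : Integrable (fun x : E c => Real.exp (-(l * |⟪u, x⟫|))) (gam c) := by
    refine i0.mono' (by fun_prop) (Filter.Eventually.of_forall fun x => ?_)
    rw [Real.norm_eq_abs, Real.abs_exp]
    exact Real.exp_le_one_iff.2 (neg_nonpos.2 (mul_nonneg hl (abs_nonneg _)))
  have h1 : ∫ x, Real.exp (-(l * |⟪u, x⟫|)) ∂(gam c) ≤
      ∫ x, (1 - l * |⟪u, x⟫| + l ^ 2 / 2 * ⟪u, x⟫ ^ 2) ∂(gam c) := by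
    refine integral_mono i4 i3 fun x => ?_
    have h2 := exp_neg_le (s := l * |⟪u, x⟫|) (mul_nonneg hl (abs_nonneg _))
    rw [mul_pow, sq_abs] at h2
    refine h2.trans (le_of_eq ?_)
    ring
  refine h1.trans ?_
  rw [integral_add i01 i2, integral_sub i0 i1, integral_const_mul, integral_const_mul,
    e1, e2, integral_const, probReal_univ, one_smul]
  have h3 := Real.add_one_le_exp (-(l * Real.sqrt (2 / Real.pi)) + l ^ 2 / 2)
  refine le_trans (le_of_eq ?_) h3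
  ring

theorem exp_int_lin {c : ℕ} (u : E c) (a : ℝ) :
    Integrable (fun x : E c => Real.exp (a * ⟪u, x⟫)) (gam c) := by
  have h1 : Integrable (fun t : ℝ => Real.exp (a * t)) ((gam c).map (fun x => ⟪u, x⟫)) := by
    rw [exp_law u, integrable_map_measure (by fun_prop) (by fun_prop)]
    have h2 := ProbabilityTheory.integrable_exp_mul_gaussianReal (μ := 0) (v := 1) (a * ‖u‖)
    refine h2.congr (Filter.Eventually.of_forall fun t => ?_)
    simp only [Function.comp]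
    rw [mul_assoc]
  rw [integrable_map_measure (by fun_prop) (by fun_prop)] at h1
  exact h1

theorem exp_val_lin {c : ℕ} {u : E c} (hu : ‖u‖ = 1) (a : ℝ) :
    ∫ x : E c, Real.exp (a * ⟪u, x⟫) ∂(gam c) = Real.exp (a ^ 2 / 2) := by
  have h1 : ∫ x : E c, Real.exp (a * ⟪u, x⟫) ∂(gam c) =
      ∫ t, Real.exp (a * t) ∂((gam c).map (fun x => ⟪u, x⟫)) := by
    rw [integral_map (by fun_prop) (by fun_prop)]
  rw [h1, exp_law u, integral_map (by fun_prop) (by fun_prop), hu]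
  have h2 := congrFun (ProbabilityTheory.mgf_fun_id_gaussianReal (μ := 0) (v := 1)) a
  rw [ProbabilityTheory.mgf] at h2
  simp only [one_mul]
  rw [h2]
  norm_num

theorem exp_up_int {c : ℕ} (u : E c) : Integrable (fun x : E c => Real.exp (2 * |⟪u, x⟫|)) (gam c) := by
  refine ((exp_int_lin u 2).add (exp_int_lin u (-2))).mono' (by fun_prop)
    (Filter.Eventually.of_forall fun x => ?_)
  rw [Real.norm_eq_abs, Real.abs_exp]
  change _ ≤ Real.exp (2 * ⟪u, x⟫) + Real.exp (-2 * ⟪u, x⟫)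
  rcases abs_cases (⟪u, x⟫ : ℝ) with h | h
  · rw [h.1]
    linarith [Real.exp_pos (-2 * (⟪u, x⟫ : ℝ))]
  · rw [h.1, show (2 : ℝ) * -⟪u, x⟫ = -2 * ⟪u, x⟫ by ring]
    linarith [Real.exp_pos (2 * (⟪u, x⟫ : ℝ))]

/-- PROOF: `exp (2 |t|) ≤ exp (2 t) + exp (-2 t)`, `∫ exp (2 ⟪u, x⟫) = exp 2` (the moment generating function: the law of `⟪u, x⟫` is
`gaussianReal 0 1`; or a shift of the density). -/
theorem exp_up {c : ℕ} {u : E c} (hu : ‖u‖ = 1) :
    ∫ x, Real.exp (2 * |⟪u, x⟫|) ∂(gam c) ≤ 2 * Real.exp 2 := by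
  have h1 : ∫ x, Real.exp (2 * |⟪u, x⟫|) ∂(gam c) ≤
      ∫ x, (Real.exp (2 * ⟪u, x⟫) + Real.exp (-2 * ⟪u, x⟫)) ∂(gam c) := by
    refine integral_mono (exp_up_int u) ((exp_int_lin u 2).add (exp_int_lin u (-2))) fun x => ?_
    change Real.exp (2 * |⟪u, x⟫|) ≤ Real.exp (2 * ⟪u, x⟫) + Real.exp (-2 * ⟪u, x⟫)
    rcases abs_cases (⟪u, x⟫ : ℝ) with h | h
    · rw [h.1]
      linarith [Real.exp_pos (-2 * (⟪u, x⟫ : ℝ))]
    · rw [h.1, show (2 : ℝ) * -⟪u, x⟫ = -2 * ⟪u, x⟫ by ring]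
      linarith [Real.exp_pos (2 * (⟪u, x⟫ : ℝ))]
  refine h1.trans ?_
  rw [integral_add (exp_int_lin u 2) (exp_int_lin u (-2)), exp_val_lin hu, exp_val_lin hu]
  have h2 : ((2 : ℝ) ^ 2 / 2) = 2 := by norm_num
  have h3 : ((-2 : ℝ) ^ 2 / 2) = 2 := by norm_num
  rw [h2, h3]
  linarith

theorem exp_int_norm {c : ℕ} {l : ℝ} (hl : l < 1) :
    Integrable (fun x : E c => Real.exp (l * ‖x‖ ^ 2 / 2)) (gam c) := by
  rw [integrable_gam]
  have h := GaussianFourier.integrable_cexp_neg_mul_sq_norm_add (V := E c)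
    (b := (((1 - l) / 2 : ℝ) : ℂ)) (by rw [Complex.ofReal_re]; linarith) 0 0
  have h2 := (h.re).const_mul ((2 * Real.pi) ^ (-(c : ℝ) / 2))
  refine h2.congr (Filter.Eventually.of_forall fun x => ?_)
  simp only [zero_mul, add_zero]
  have h3 : (-(((1 - l) / 2 : ℝ) : ℂ) * (‖x‖ : ℂ) ^ 2) =
      ((-((1 - l) / 2) * ‖x‖ ^ 2 : ℝ) : ℂ) := by push_cast; ring
  change (2 * Real.pi) ^ (-(c : ℝ) / 2) *
    Complex.re (Complex.exp (-(((1 - l) / 2 : ℝ) : ℂ) * (‖x‖ : ℂ) ^ 2)) = _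
  rw [h3, ← Complex.ofReal_exp, Complex.ofReal_re, dens, mul_left_comm, ← Real.exp_add]
  congr 2
  ring

theorem exp_val_norm {c : ℕ} {l : ℝ} (hl : l < 1) :
    ∫ x : E c, Real.exp (l * ‖x‖ ^ 2 / 2) ∂(gam c) = (1 - l)⁻¹ ^ ((c : ℝ) / 2) := by
  have hl' : 0 < 1 - l := by linarith
  rw [integral_gam]
  have h := GaussianFourier.integral_rexp_neg_mul_sq_norm (V := E c) (b := (1 - l) / 2)
    (by linarith)
  rw [finrank_euclideanSpace_fin] at h
  have h1 : ∀ x : E c, Real.exp (l * ‖x‖ ^ 2 / 2) * dens c x =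
      (2 * Real.pi) ^ (-(c : ℝ) / 2) * Real.exp (-((1 - l) / 2) * ‖x‖ ^ 2) := by
    intro x
    rw [dens, mul_left_comm, ← Real.exp_add]
    congr 2
    ring
  simp_rw [h1]
  rw [integral_const_mul, h, neg_div, Real.rpow_neg (by positivity),
    ← Real.inv_rpow (by positivity), ← Real.mul_rpow (by positivity) (by positivity)]
  congr 1
  have hpi := Real.pi_pos
  field_simp

/-- PROOF: Markov's inequality for `exp (l ‖x‖ ^ 2 / 2)`, `l = θ / (1 + θ)`, whose mean is `(1 - l) ^ (-c/2) = (1 + θ) ^ (c/2)`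
(`GaussianFourier.integral_rexp_neg_mul_sq_norm` or a scaling of `integral_dens`). -/
theorem norm_tail {c : ℕ} {θ : ℝ} (hθ : 0 < θ) :
    (gam c {x | (1 + θ) * c ≤ ‖x‖ ^ 2}).toReal ≤ ((1 + θ) * Real.exp (-θ)) ^ ((c : ℝ) / 2) := by
  have h0 : 0 < 1 + θ := by linarith
  set l : ℝ := θ / (1 + θ) with hl
  have hl1 : l < 1 := by
    rw [hl, div_lt_one h0]
    linarith
  have hl0 : 0 ≤ l := by positivity
  have hl2 : (1 - l)⁻¹ = 1 + θ := by
    rw [hl]
    field_simp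
    ring
  have hl3 : l * (1 + θ) = θ := by
    rw [hl]
    field_simp
  have h1 := mul_meas_ge_le_integral_of_nonneg (μ := gam c)
    (f := fun x : E c => Real.exp (l * ‖x‖ ^ 2 / 2))
    (Filter.Eventually.of_forall fun x => (Real.exp_pos _).le) (exp_int_norm hl1)
    (Real.exp (θ * c / 2))
  rw [exp_val_norm hl1, hl2] at h1
  have h2 : (gam c {x | (1 + θ) * c ≤ ‖x‖ ^ 2}).toReal ≤
      (gam c).real {x | Real.exp (θ * c / 2) ≤ Real.exp (l * ‖x‖ ^ 2 / 2)} := by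
    refine ENNReal.toReal_mono (measure_ne_top _ _) (measure_mono fun x hx => ?_)
    have hx' : (1 + θ) * c ≤ ‖x‖ ^ 2 := hx
    change Real.exp (θ * c / 2) ≤ Real.exp (l * ‖x‖ ^ 2 / 2)
    rw [Real.exp_le_exp]
    have h3 := mul_le_mul_of_nonneg_left hx' hl0
    rw [← mul_assoc, hl3] at h3
    linarith
  have h4 : ((1 + θ) * Real.exp (-θ)) ^ ((c : ℝ) / 2) =
      (1 + θ) ^ ((c : ℝ) / 2) * Real.exp (-(θ * c / 2)) := by
    rw [Real.mul_rpow h0.le (Real.exp_pos _).le, ← Real.exp_mul]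
    congr 2
    ring
  rw [h4, Real.exp_neg, ← div_eq_mul_inv, le_div_iff₀ (Real.exp_pos _), mul_comm]
  exact (mul_le_mul_of_nonneg_left h2 (Real.exp_pos _).le).trans h1

/-- PROOF: Markov's inequality, `int_norm_sq`. -/
theorem norm_far {c : ℕ} {r : ℝ} (hr : 0 < r) : (gam c {x | r ≤ ‖x‖}).toReal ≤ c / r ^ 2 := by
  have h1 := mul_meas_ge_le_integral_of_nonneg (μ := gam c)
    (f := fun x : E c => ‖x‖ ^ 2)
    (Filter.Eventually.of_forall fun x => sq_nonneg _) (integrable_norm_sq_gam c) (r ^ 2)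
  rw [int_norm_sq] at h1
  have h2 : (gam c {x | r ≤ ‖x‖}).toReal ≤ (gam c).real {x | r ^ 2 ≤ ‖x‖ ^ 2} := by
    refine ENNReal.toReal_mono (measure_ne_top _ _) (measure_mono fun x hx => ?_)
    have hx' : r ≤ ‖x‖ := hx
    exact pow_le_pow_left₀ hr.le hx' 2
  rw [le_div_iff₀ (by positivity), mul_comm]
  exact (mul_le_mul_of_nonneg_left h2 (by positivity)).trans h1

theorem base_lt_one {θ : ℝ} (hθ : 0 < θ) : (1 + θ) * Real.exp (-θ) < 1 := by
  rw [Real.exp_neg, ← div_eq_mul_inv, div_lt_one (Real.exp_pos _), add_comm]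
  exact Real.add_one_lt_exp hθ.ne'

end Pool.Agent.H.MP_4bcbbd_co.G
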