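import Pool.Agent.H.MP_4bcbbd_co.h39g.NetL
import Pool.Agent.H.MP_4bcbbd_co.h39f.LowerFr

/-!
MP_4bcbbd_co, theorem G: the lower bound.
-/

set_option autoImplicit false

namespace Pool.Agent.H.MP_4bcbbd_co.G

open scoped BigOperators RealInnerProductSpace
open Pool.Agent.H.MP_4bcbbd_co.F
open MeasureTheory

open Classical in
/-- PROOF: Markov's inequality for the number of the `i ∈ s` with `ω ∈ G i`. -/
theorem exists_good {Ω κ : Type} [MeasurableSpace Ω] (P : Measure Ω) [IsProbabilityMeasure P]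
    (s : Finset κ) (G : κ → Set Ω) (hG : ∀ i ∈ s, MeasurableSet (G i)) {H : Set Ω}
    (hHm : MeasurableSet H) {α β ε : ℝ} (hα : 0 ≤ α) (hε : 0 < ε)
    (h1 : ∀ i ∈ s, (P (G i)).toReal ≤ α)
    (h2 : (P H).toReal ≤ β) (h : α / ε + β < 1) :
    ∃ ω, ω ∉ H ∧ ((s.filter fun i => ω ∈ G i).card : ℝ) ≤ ε * s.card := by
  by_contra hcon
  push Not at hcon
  -- the function N(ω) = ∑ i∈s, indicator (G i) 1 ω
  have hcard : ∀ ω, ((s.filter fun i => ω ∈ G i).card : ℝ) =
      ∑ i ∈ s, (G i).indicator (fun _ => (1 : ℝ)) ω := by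
    intro ω
    rw [Finset.card_filter]
    push_cast
    refine Finset.sum_congr rfl fun i _ => ?_
    simp only [Set.indicator_apply]
  have hint : ∀ i ∈ s, Integrable ((G i).indicator (fun _ => (1 : ℝ))) P := fun i hi =>
    (integrable_const (1 : ℝ)).indicator (hG i hi)
  have hHint : Integrable (H.indicator (fun _ => (ε * s.card : ℝ))) P :=
    (integrable_const _).indicator hHm
  have hI : ∫ ω, (∑ i ∈ s, (G i).indicator (fun _ => (1 : ℝ)) ω) ∂P ≤ α * s.card := by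
    rw [integral_finsetSum s hint]
    have : ∀ i ∈ s, ∫ ω, (G i).indicator (fun _ => (1 : ℝ)) ω ∂P ≤ α := by
      intro i hi
      rw [integral_indicator_const _ (hG i hi)]
      simpa [Measure.real] using h1 i hi
    have h3 := Finset.sum_le_sum this
    rw [Finset.sum_const, nsmul_eq_mul] at h3
    linarith
  have hHI : ∫ ω, H.indicator (fun _ => (ε * s.card : ℝ)) ω ∂P ≤ β * (ε * s.card) := by
    rw [integral_indicator_const _ hHm]
    simp only [Measure.real, smul_eq_mul]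
    exact mul_le_mul_of_nonneg_right h2 (by positivity)
  rcases Finset.eq_empty_or_nonempty s with hs | hs
  · -- s empty: every ω is in H
    have hall : H = Set.univ := by
      ext ω
      simp only [Set.mem_univ, iff_true]
      by_contra hω
      have := hcon ω hω
      rw [hs] at this
      simp at this
    rw [hall] at h2
    simp at h2
    have h3 : 0 ≤ α / ε := by positivity
    linarith
  · have hs0 : (0 : ℝ) < s.card := by exact_mod_cast hs.card_pos
    have hge : ∀ ω, ε * s.card ≤ ∑ i ∈ s, (G i).indicator (fun _ => (1 : ℝ)) ω +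
        H.indicator (fun _ => (ε * s.card : ℝ)) ω := by
      intro ω
      by_cases hω : ω ∈ H
      · rw [Set.indicator_of_mem hω]
        have : 0 ≤ ∑ i ∈ s, (G i).indicator (fun _ => (1 : ℝ)) ω :=
          Finset.sum_nonneg fun i _ => Set.indicator_nonneg (fun _ _ => zero_le_one) _
        linarith
      · rw [Set.indicator_of_notMem hω, ← hcard ω, add_zero]
        exact (hcon ω hω).le
    have h4 : ∫ _ω, (ε * s.card : ℝ) ∂P ≤ ∫ ω, (∑ i ∈ s, (G i).indicator (fun _ => (1 : ℝ)) ω +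
        H.indicator (fun _ => (ε * s.card : ℝ)) ω) ∂P :=
      integral_mono (integrable_const _) ((integrable_finsetSum s hint).add hHint) hge
    rw [integral_add (integrable_finsetSum s hint) hHint] at h4
    simp only [integral_const, probReal_univ, smul_eq_mul, one_mul] at h4
    have h5 : ε * s.card ≤ α * s.card + β * (ε * s.card) := by linarith
    have h6 : ε * s.card * (α / ε + β) = α * s.card + β * (ε * s.card) := by
      field_simp
    have h7 : ε * s.card * (α / ε + β) < ε * s.card * 1 :=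
      mul_lt_mul_of_pos_left h (by positivity)
    linarith

/-- `w ∉ G` implies the robust cover. -/
theorem lower_rcov {c n m : ℕ} (hm : 0 < m) {θ τ : ℝ} (hθ : 0 < θ)
    (hθ1 : θ ≤ 1 / 50) (hτ1 : τ < 1)
    (hmc : Real.sqrt ((1 + θ) * n * c) ≤
      (1 - τ) * ((1 - 7 * θ) * Real.sqrt (2 / Real.pi) * m))
    {w : ℕ → E c} {J A : Finset ℕ} (hJc : J.card = m)
    (hw : ∀ u : E c, (1 - 7 * θ) * Real.sqrt (2 / Real.pi) * J.card * ‖u‖ ≤
      ∑ i ∈ J, |⟪u, w i⟫|)
    (hs : ‖sm w A (Finset.range n \ J)‖ ^ 2 ≤ (1 + θ) * n * c) :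
    RCov τ w (Finset.range n) J A := by
  have hpi : 0 < Real.sqrt (2 / Real.pi) := Real.sqrt_pos.2 (by positivity)
  have h7 : 0 < 1 - 7 * θ := by linarith
  have hm' : (0 : ℝ) < m := by exact_mod_cast hm
  have hs' : ‖sm w A (Finset.range n \ J)‖ ≤ Real.sqrt ((1 + θ) * n * c) :=
    Real.le_sqrt_of_sq_le hs
  intro u
  have h1 := hw u
  rw [hJc] at h1
  refine ⟨?_, fun hu => ?_⟩
  · calc |⟪u, sm w A (Finset.range n \ J)⟫| ≤ ‖u‖ * ‖sm w A (Finset.range n \ J)‖ :=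
          abs_real_inner_le_norm _ _
      _ ≤ ‖u‖ * ((1 - τ) * ((1 - 7 * θ) * Real.sqrt (2 / Real.pi) * m)) :=
          mul_le_mul_of_nonneg_left (hs'.trans hmc) (norm_nonneg u)
      _ = (1 - τ) * ((1 - 7 * θ) * Real.sqrt (2 / Real.pi) * m * ‖u‖) := by ring
      _ ≤ _ := mul_le_mul_of_nonneg_left h1 (by linarith)
  · refine lt_of_lt_of_le ?_ h1
    have := norm_pos_iff.2 hu
    positivity

theorem lower_num {θ : ℝ} (hθ1 : θ ≤ 1 / 50) :
    1 / 2 ≤ (1 - 7 * θ) * Real.sqrt (2 / Real.pi) := by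
  have h1 : (3 : ℝ) / 5 ≤ Real.sqrt (2 / Real.pi) := by
    refine Real.le_sqrt_of_sq_le ?_
    rw [le_div_iff₀ Real.pi_pos]
    have := Real.pi_le_four
    linarith
  nlinarith

/-- the vertex condition. -/
theorem lower_vertex {c n : ℕ} {θ : ℝ} (hθ1 : θ ≤ 1 / 50)
    {w : ℕ → E c}
    (hw : ∀ u : E c, (1 - 7 * θ) * Real.sqrt (2 / Real.pi) * n * ‖u‖ ≤
      ∑ i ∈ Finset.range n, |⟪u, w i⟫|)
    {i : ℕ} (hi : i ∈ Finset.range n) (hwi : ‖w i‖ ≤ n / 10) :
    RCov (1 / 2) w (Finset.range n) ((Finset.range n).erase i) {i} := by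
  have hnum := lower_num hθ1
  have hn0 : (0 : ℝ) < n := by
    have := Finset.mem_range.1 hi
    exact_mod_cast (by omega : 0 < n)
  intro u
  have hset : Finset.range n \ (Finset.range n).erase i = {i} := by
    ext j
    rw [Finset.mem_sdiff, Finset.mem_erase, Finset.mem_singleton]
    constructor
    · intro h
      by_contra hcon
      exact h.2 ⟨hcon, h.1⟩
    · rintro rfl
      exact ⟨hi, fun h => h.1 rfl⟩
  have hsm : sm w {i} (Finset.range n \ (Finset.range n).erase i) = w i := by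
    rw [hset]
    unfold sm sg
    simp
  have hi1 : |⟪u, w i⟫| ≤ n / 10 * ‖u‖ := by
    refine (abs_real_inner_le_norm u (w i)).trans ?_
    rw [mul_comm]
    exact mul_le_mul_of_nonneg_right hwi (norm_nonneg u)
  have hsplit := Finset.add_sum_erase (Finset.range n) (fun j => |⟪u, w j⟫|) hi
  have hall := hw u
  have h3 : 1 / 2 * (n * ‖u‖) ≤ (1 - 7 * θ) * Real.sqrt (2 / Real.pi) * (n * ‖u‖) :=
    mul_le_mul_of_nonneg_right hnum (by positivity)
  have h4 : 0 ≤ n * ‖u‖ := by positivity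
  refine ⟨?_, ?_⟩
  · rw [hsm]
    linarith
  · intro hu
    have h5 : 0 < n * ‖u‖ := mul_pos hn0 (norm_pos_iff.2 hu)
    linarith

theorem lower_meas {c : ℕ} (A T : Finset ℕ) : Measurable fun w : ℕ → E c => sm w A T := by
  unfold sm
  refine Finset.measurable_sum _ fun i _ => ?_
  exact (measurable_pi_apply (X := fun _ : ℕ => E c) i).const_smul (sg A i)

/-- PROOF: for a pair `(J, A)` the bad set `G (J, A)` is the set of `width` for `J` and the set of `tail_sum` for `T = range n \ J` (empty for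
`T = ∅`); `w ∉ G (J, A)` implies `RCov τ`. `H` is the set of `width` for `J = range n` and the sets of `tail_one` for `r = n / 10`, `i < n`; `w ∉ H`
implies the vertex condition, if `(1 - 7 θ) √(2/π) ≥ 1 / 2`: `(1/2) ∑_{j ≠ i} |⟪u, w j⟫| ≥ (1/2) (n/2 - n/10) ‖u‖ ≥ (n/10) ‖u‖`. -/
theorem lower_main {c n m : ℕ} (hc : 1 ≤ c) (hmn : m ≤ n) (hm : 0 < m) {θ τ ε : ℝ} (hθ : 0 < θ)
    (hθ1 : θ ≤ 1 / 50) (hτ : 0 < τ) (hτ1 : τ < 1) (hε : 0 < ε)
    (hmc : Real.sqrt ((1 + θ) * n * c) ≤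
      (1 - τ) * ((1 - 7 * θ) * Real.sqrt (2 / Real.pi) * m))
    (h : ((2 + 4 / θ) ^ c * (Real.exp (-(θ ^ 2 / Real.pi)) ^ m + (2 * Real.exp (-4)) ^ m) +
        ((1 + θ) * Real.exp (-θ)) ^ ((c : ℝ) / 2)) / ε +
      ((2 + 4 / θ) ^ c * (Real.exp (-(θ ^ 2 / Real.pi)) ^ n + (2 * Real.exp (-4)) ^ n) +
        100 * c / n) < 1) :
    ∃ w : ℕ → E c,
      (∀ i ∈ Finset.range n, RCov (1 / 2) w (Finset.range n) ((Finset.range n).erase i) {i}) ∧
      1 - ε ≤ pr (Finset.range n) m (RCov τ w (Finset.range n)) := by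
  classical
  have hn0 : (0 : ℝ) < n := by exact_mod_cast (by omega : 0 < n)
  have hwid := fun J : Finset ℕ => width (c := c) hc hθ (by linarith : θ ≤ 1 / 4) J
  choose W hWm hWp hW using hwid
  set S : Finset ℕ → Finset ℕ → Set (ℕ → E c) := fun T A =>
    if T = ∅ then ∅ else {w | (1 + θ) * (T.card * c) ≤ ‖sm w A T‖ ^ 2} with hS
  have hSm : ∀ T A, MeasurableSet (S T A) := by
    intro T A
    simp only [hS]
    split_ifs
    · exact MeasurableSet.empty
    · exact measurableSet_le measurable_const ((lower_meas A T).norm.pow_const 2)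
  have hb0 : 0 ≤ ((1 + θ) * Real.exp (-θ)) ^ ((c : ℝ) / 2) := by positivity
  have hSp : ∀ T A, (PP c (S T A)).toReal ≤ ((1 + θ) * Real.exp (-θ)) ^ ((c : ℝ) / 2) := by
    intro T A
    simp only [hS]
    split_ifs with hT
    · simpa using hb0
    · exact tail_sum A T (Finset.card_pos.2 (Finset.nonempty_iff_ne_empty.2 hT)) hθ
  have hSw : ∀ T A w, w ∉ S T A → ‖sm w A T‖ ^ 2 ≤ (1 + θ) * (T.card * c) := by
    intro T A w hw
    simp only [hS] at hw
    split_ifs at hw with hT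
    · subst hT
      simp [sm]
    · exact (not_le.1 hw).le
  set α : ℝ := (2 + 4 / θ) ^ c * (Real.exp (-(θ ^ 2 / Real.pi)) ^ m + (2 * Real.exp (-4)) ^ m) +
        ((1 + θ) * Real.exp (-θ)) ^ ((c : ℝ) / 2) with hα
  set β : ℝ := (2 + 4 / θ) ^ c * (Real.exp (-(θ ^ 2 / Real.pi)) ^ n + (2 * Real.exp (-4)) ^ n) +
        100 * c / n with hβ
  have hα0 : 0 ≤ α := by positivity
  have hone : ∀ Q ∈ (Finset.range n).powersetCard m ×ˢ (Finset.range n).powerset,
      (PP c (W Q.1 ∪ S (Finset.range n \ Q.1) Q.2)).toReal ≤ α := by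
    intro Q hQ
    have hJ := (Finset.mem_powersetCard.1 (Finset.mem_product.1 hQ).1)
    have h1 := measureReal_union_le (μ := PP c) (W Q.1) (S (Finset.range n \ Q.1) Q.2)
    have h2 := hWp Q.1
    rw [hJ.2] at h2
    have h3 := hSp (Finset.range n \ Q.1) Q.2
    simp only [Measure.real] at h1
    linarith
  have htwo : (PP c (W (Finset.range n) ∪
      ⋃ i ∈ Finset.range n, {w : ℕ → E c | (n : ℝ) / 10 ≤ ‖w i‖})).toReal ≤ β := by
    have h1 := measureReal_union_le (μ := PP c) (W (Finset.range n))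
      (⋃ i ∈ Finset.range n, {w : ℕ → E c | (n : ℝ) / 10 ≤ ‖w i‖})
    have h2 := hWp (Finset.range n)
    rw [Finset.card_range] at h2
    have h3 := measureReal_biUnion_finset_le (μ := PP c) (Finset.range n)
      (fun i => {w : ℕ → E c | (n : ℝ) / 10 ≤ ‖w i‖})
    have h4 : ∑ i ∈ Finset.range n, (PP c).real {w : ℕ → E c | (n : ℝ) / 10 ≤ ‖w i‖} ≤
        ∑ i ∈ Finset.range n, (c : ℝ) / ((n : ℝ) / 10) ^ 2 :=
      Finset.sum_le_sum fun i _ => tail_one i (by positivity)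
    rw [Finset.sum_const, Finset.card_range, nsmul_eq_mul] at h4
    have h5 : (n : ℝ) * ((c : ℝ) / ((n : ℝ) / 10) ^ 2) = 100 * c / n := by
      field_simp
      norm_num
    simp only [Measure.real] at h1 h3 h4
    linarith
  obtain ⟨w, hwH, hwG⟩ := exists_good (PP c)
    ((Finset.range n).powersetCard m ×ˢ (Finset.range n).powerset)
    (fun Q : Finset ℕ × Finset ℕ => W Q.1 ∪ S (Finset.range n \ Q.1) Q.2)
    (fun Q _ => (hWm _).union (hSm _ _))
    (H := W (Finset.range n) ∪ ⋃ i ∈ Finset.range n, {w : ℕ → E c | (n : ℝ) / 10 ≤ ‖w i‖})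
    ((hWm _).union (Finset.measurableSet_biUnion _ fun i _ =>
      measurableSet_le measurable_const (measurable_pi_apply i).norm))
    hα0 hε hone htwo h
  rw [Set.mem_union, not_or] at hwH
  have hwi : ∀ i ∈ Finset.range n, ‖w i‖ ≤ n / 10 := by
    intro i hi
    by_contra hcon
    apply hwH.2
    rw [Set.mem_iUnion₂]
    exact ⟨i, hi, (not_le.1 hcon).le⟩
  refine ⟨w, fun i hi => lower_vertex hθ1 ?_ hi (hwi i hi), ?_⟩
  · have := hW _ w hwH.1
    rw [Finset.card_range] at this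
    exact this
  · unfold pr
    set B := Finset.range n with hB
    have hcB : B.card = n := Finset.card_range n
    set s := B.powersetCard m ×ˢ B.powerset with hs
    have hscard : (s.card : ℝ) = (B.card.choose m : ℝ) * 2 ^ B.card := by
      rw [hs, Finset.card_product, Finset.card_powersetCard, Finset.card_powerset]
      push_cast
      rfl
    have hspos : (0 : ℝ) < s.card := by
      rw [hscard, hcB]
      have := Nat.choose_pos hmn
      positivity
    rw [← hscard, le_div_iff₀ hspos]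
    have hsub : (s.filter fun Q => ¬ RCov τ w B Q.1 Q.2) ⊆
        s.filter fun Q => w ∈ W Q.1 ∪ S (B \ Q.1) Q.2 := by
      intro Q hQ
      rw [Finset.mem_filter] at hQ ⊢
      refine ⟨hQ.1, ?_⟩
      by_contra hcon
      apply hQ.2
      rw [Set.mem_union, not_or] at hcon
      have hJ := (Finset.mem_powersetCard.1 (Finset.mem_product.1 hQ.1).1)
      refine lower_rcov hm hθ hθ1 hτ1 hmc hJ.2 (hW _ w hcon.1) ?_
      refine (hSw _ _ _ hcon.2).trans ?_
      have h1 : ((B \ Q.1).card : ℝ) ≤ n := by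
        have := Finset.card_le_card (Finset.sdiff_subset (s := B) (t := Q.1))
        rw [hcB] at this
        exact_mod_cast this
      have h2 : ((B \ Q.1).card : ℝ) * c ≤ n * c :=
        mul_le_mul_of_nonneg_right h1 (Nat.cast_nonneg c)
      have h3 : (1 + θ) * (((B \ Q.1).card : ℝ) * c) ≤ (1 + θ) * (n * c) :=
        mul_le_mul_of_nonneg_left h2 (by linarith)
      linarith
    have h1 := Finset.card_le_card hsub
    have h2 := Finset.card_filter_add_card_filter_not (s := s) (fun Q => RCov τ w B Q.1 Q.2)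
    have h3 : ((s.filter fun Q => ¬ RCov τ w B Q.1 Q.2).card : ℝ) ≤ ε * s.card := by
      have h1' : ((s.filter fun Q => ¬ RCov τ w B Q.1 Q.2).card : ℝ) ≤
          ((s.filter fun Q => w ∈ W Q.1 ∪ S (B \ Q.1) Q.2).card : ℝ) := by
        exact_mod_cast h1
      refine h1'.trans (le_of_eq_of_le ?_ hwG)
      congr
    have h4 : ((s.filter fun Q => RCov τ w B Q.1 Q.2).card : ℝ) +
        ((s.filter fun Q => ¬ RCov τ w B Q.1 Q.2).card : ℝ) = s.card := by
      exact_mod_cast h2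
    have h5 : (1 - ε) * (s.card : ℝ) ≤ ((s.filter fun Q => RCov τ w B Q.1 Q.2).card : ℝ) := by
      linarith
    convert h5

/-- `L ^ c q ^ m ≤ (1 / 2) ^ c` for `m ≥ K c`. -/
theorem lower_pow {L q : ℝ} (hL : 0 ≤ L) (hq : 0 ≤ q) (hq1 : q ≤ 1) {K c m : ℕ}
    (hK : L * q ^ K ≤ 1 / 2) (hm : K * c ≤ m) : L ^ c * q ^ m ≤ (1 / 2) ^ c := by
  calc L ^ c * q ^ m ≤ L ^ c * q ^ (K * c) :=
        mul_le_mul_of_nonneg_left (pow_le_pow_of_le_one hq hq1 hm) (pow_nonneg hL c)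
    _ = (L * q ^ K) ^ c := by rw [mul_pow, pow_mul]
    _ ≤ _ := pow_le_pow_left₀ (by positivity) hK c

theorem lower_exists_pow {L q : ℝ} (hL : 0 < L) (hq : 0 ≤ q) (hq1 : q < 1) :
    ∃ K₀ : ℕ, ∀ K : ℕ, K₀ ≤ K → L * q ^ K ≤ 1 / 2 := by
  obtain ⟨K₀, hK₀⟩ := exists_pow_lt_of_lt_one (show 0 < 1 / (2 * L) by positivity) hq1
  refine ⟨K₀, fun K hK => ?_⟩
  have h1 : q ^ K ≤ 1 / (2 * L) := (pow_le_pow_of_le_one hq hq1.le hK).trans hK₀.le
  have h2 := mul_le_mul_of_nonneg_left h1 hL.le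
  refine h2.trans (le_of_eq ?_)
  field_simp

theorem lower_fin {ε P x₁ x₂ y₁ y₂ z c n : ℝ} (hε : 0 < ε) (hε1 : ε ≤ 1) (hn : 0 < n)
    (hcn : c ≤ 1 / 400 * n) (h1 : P * x₁ ≤ ε / 16) (h2 : P * x₂ ≤ ε / 16)
    (h3 : P * y₁ ≤ ε / 16) (h4 : P * y₂ ≤ ε / 16) (h5 : z ≤ ε / 8) :
    (P * (x₁ + x₂) + z) / ε + (P * (y₁ + y₂) + 100 * c / n) < 1 := by
  have e1 : (P * (x₁ + x₂) + z) / ε ≤ 1 / 4 := by
    rw [div_le_iff₀ hε, mul_add]
    linarith
  have e2 : 100 * c / n ≤ 1 / 4 := by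
    rw [div_le_iff₀ hn]
    linarith
  rw [mul_add P y₁ y₂]
  linarith

/-- the case `ε ≤ 1`. -/
theorem lower_G1 {ε : ℝ} (hε : 0 < ε) (hε1 : ε ≤ 1) : ∃ (C : ℕ) (η τ : ℝ), 0 < η ∧ 0 < τ ∧ τ < 1 ∧
    ∀ c n m : ℕ, C ≤ c → (c : ℝ) ≤ η * n → m ≤ n →
      (1 + ε) * Real.sqrt (Real.pi * c * n / 2) ≤ m → ∃ w : ℕ → E c,
        (∀ i ∈ Finset.range n, RCov (1 / 2) w (Finset.range n) ((Finset.range n).erase i) {i}) ∧
        1 - ε ≤ pr (Finset.range n) m (RCov τ w (Finset.range n)) := by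
  set θ : ℝ := ε / 50 with hθdef
  have hθ : 0 < θ := by positivity
  have hθ1 : θ ≤ 1 / 50 := by
    rw [hθdef]
    linarith
  set L : ℝ := 2 + 4 / θ with hLdef
  have hL : 0 < L := by positivity
  set q₁ : ℝ := Real.exp (-(θ ^ 2 / Real.pi)) with hq₁
  have hq₁0 : 0 ≤ q₁ := (Real.exp_pos _).le
  have hq₁1 : q₁ < 1 := by
    rw [hq₁, Real.exp_lt_one_iff]
    have : 0 < θ ^ 2 / Real.pi := by positivity
    linarith
  set q₂ : ℝ := 2 * Real.exp (-4) with hq₂
  have hq₂0 : 0 ≤ q₂ := by positivity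
  have hq₂1 : q₂ < 1 := by
    have h1 : (4 : ℝ) + 1 ≤ Real.exp 4 := Real.add_one_le_exp 4
    rw [hq₂, Real.exp_neg, ← div_eq_mul_inv, div_lt_one (Real.exp_pos 4)]
    linarith
  set b : ℝ := (1 + θ) * Real.exp (-θ) with hb
  have hb0 : 0 < b := by positivity
  have hb1 : b < 1 := base_lt_one hθ
  obtain ⟨K₁, hK₁⟩ := lower_exists_pow hL hq₁0 hq₁1
  obtain ⟨K₂, hK₂⟩ := lower_exists_pow hL hq₂0 hq₂1
  set K : ℕ := K₁ + K₂ + 1 with hK
  obtain ⟨C₁, hC₁⟩ := exists_pow_lt_of_lt_one (show 0 < ε / 16 by positivity)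
    (show (1 / 2 : ℝ) < 1 by norm_num)
  obtain ⟨C₂, hC₂⟩ := exists_pow_lt_of_lt_one (show 0 < ε / 8 by positivity) hb1
  refine ⟨C₁ + 2 * C₂ + 1, min (1 / 400) (1 / (K : ℝ) ^ 2), θ, by positivity, hθ, by linarith,
    fun c n m hc hcn hmn hm => ?_⟩
  have hc1 : 1 ≤ c := by omega
  have hc0 : (0 : ℝ) < c := by exact_mod_cast (by omega : 0 < c)
  have hK0 : (0 : ℝ) < K := by
    rw [hK]
    positivity
  have hη0 : (0 : ℝ) < min (1 / 400) (1 / (K : ℝ) ^ 2) := by positivity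
  have hn0 : (0 : ℝ) < n := by
    by_contra hcon
    have : (n : ℝ) = 0 := le_antisymm (not_lt.1 hcon) (Nat.cast_nonneg n)
    rw [this, mul_zero] at hcn
    linarith
  have hcn1 : (c : ℝ) ≤ 1 / 400 * n :=
    hcn.trans (mul_le_mul_of_nonneg_right (min_le_left _ _) hn0.le)
  have hcn2 : (c : ℝ) ≤ 1 / (K : ℝ) ^ 2 * n :=
    hcn.trans (mul_le_mul_of_nonneg_right (min_le_right _ _) hn0.le)
  have hcn3 : (K : ℝ) ^ 2 * c ≤ n := by
    have h1 := mul_le_mul_of_nonneg_left hcn2 (by positivity : (0 : ℝ) ≤ (K : ℝ) ^ 2)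
    have h2 : (K : ℝ) ^ 2 * (1 / (K : ℝ) ^ 2 * n) = n := by
      field_simp
    linarith
  -- `√(c n) ≥ K c`
  have hsq : (K : ℝ) * c ≤ Real.sqrt (c * n) := by
    refine Real.le_sqrt_of_sq_le ?_
    calc ((K : ℝ) * c) ^ 2 = (c : ℝ) * ((K : ℝ) ^ 2 * c) := by ring
      _ ≤ (c : ℝ) * n := mul_le_mul_of_nonneg_left hcn3 hc0.le
  have hsplit : Real.sqrt (Real.pi * c * n / 2) = Real.sqrt (Real.pi / 2) * Real.sqrt (c * n) := by
    rw [← Real.sqrt_mul (by positivity)]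
    congr 1
    ring
  have hone : Real.sqrt (2 / Real.pi) * Real.sqrt (Real.pi / 2) = 1 := by
    rw [← Real.sqrt_mul (by positivity)]
    have : 2 / Real.pi * (Real.pi / 2) = 1 := by
      field_simp
    rw [this, Real.sqrt_one]
  have hge1 : 1 ≤ Real.sqrt (Real.pi / 2) := by
    rw [Real.one_le_sqrt]
    have := Real.pi_gt_three
    linarith
  set s : ℝ := Real.sqrt (c * n) with hs
  have hs0 : 0 ≤ s := Real.sqrt_nonneg _
  rw [hsplit] at hm
  have hms : s ≤ m := by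
    have h1 : 1 * s ≤ Real.sqrt (Real.pi / 2) * s := mul_le_mul_of_nonneg_right hge1 hs0
    have h2 : 0 ≤ Real.sqrt (Real.pi / 2) * s := by positivity
    nlinarith
  have hmK : K * c ≤ m := by
    have : (K : ℝ) * c ≤ m := hsq.trans hms
    exact_mod_cast this
  have hnK : K * c ≤ n := hmK.trans hmn
  have hm0 : 0 < m := by
    have : 0 < K * c := Nat.mul_pos (by omega) hc1
    omega
  refine lower_main hc1 hmn hm0 hθ hθ1 hθ (by linarith) hε ?_ ?_
  · have h1 : Real.sqrt ((1 + θ) * n * c) = Real.sqrt (1 + θ) * s := by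
      rw [hs, ← Real.sqrt_mul (by positivity)]
      congr 1
      ring
    have h2 : Real.sqrt (1 + θ) ≤ 1 + θ := by
      refine Real.sqrt_le_iff.2 ⟨by linarith, ?_⟩
      nlinarith
    have h3 : (1 + ε) * s ≤ Real.sqrt (2 / Real.pi) * m := by
      have h4 := mul_le_mul_of_nonneg_left hm (Real.sqrt_nonneg (2 / Real.pi))
      calc (1 + ε) * s = (1 + ε) * ((Real.sqrt (2 / Real.pi) * Real.sqrt (Real.pi / 2)) * s) := by
            rw [hone, one_mul]
        _ = Real.sqrt (2 / Real.pi) * ((1 + ε) * (Real.sqrt (Real.pi / 2) * s)) := by ring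
        _ ≤ _ := h4
    have h5 : 1 + θ ≤ (1 - θ) * (1 - 7 * θ) * (1 + ε) := by
      have h6 : 50 * θ = ε := by
        rw [hθdef]
        ring
      rw [← h6]
      nlinarith [mul_nonneg hθ.le hθ.le, mul_nonneg (mul_nonneg hθ.le hθ.le) hθ.le]
    rw [h1]
    calc Real.sqrt (1 + θ) * s ≤ (1 + θ) * s := mul_le_mul_of_nonneg_right h2 hs0
      _ ≤ (1 - θ) * (1 - 7 * θ) * (1 + ε) * s := mul_le_mul_of_nonneg_right h5 hs0
      _ = (1 - θ) * (1 - 7 * θ) * ((1 + ε) * s) := by ring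
      _ ≤ (1 - θ) * (1 - 7 * θ) * (Real.sqrt (2 / Real.pi) * m) :=
          mul_le_mul_of_nonneg_left h3 (mul_nonneg (by linarith) (by linarith))
      _ = _ := by ring
  · have hhalf : (1 / 2 : ℝ) ^ c ≤ ε / 16 := by
      refine (pow_le_pow_of_le_one (by norm_num) (by norm_num) (by omega : C₁ ≤ c)).trans hC₁.le
    have hbc : b ^ ((c : ℝ) / 2) ≤ ε / 8 := by
      have h1 : b ^ ((c : ℝ) / 2) ≤ b ^ ((C₂ : ℕ) : ℝ) := by
        refine Real.rpow_le_rpow_of_exponent_ge hb0 hb1.le ?_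
        have : ((2 * C₂ : ℕ) : ℝ) ≤ c := by exact_mod_cast (by omega : 2 * C₂ ≤ c)
        push_cast at this
        linarith
      rw [Real.rpow_natCast] at h1
      exact h1.trans hC₂.le
    have e1 := (lower_pow hL.le hq₁0 hq₁1.le (hK₁ K (by omega)) hmK).trans hhalf
    have e2 := (lower_pow hL.le hq₂0 hq₂1.le (hK₂ K (by omega)) hmK).trans hhalf
    have e3 := (lower_pow hL.le hq₁0 hq₁1.le (hK₁ K (by omega)) hnK).trans hhalf
    have e4 := (lower_pow hL.le hq₂0 hq₂1.le (hK₂ K (by omega)) hnK).trans hhalf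
    exact lower_fin hε hε1 hn0 hcn1 e1 e2 e3 e4 hbc

/-- the numbers. PROOF: `m ≥ √(π c n / 2) ≥ K c` with `K = √(π / (2 η))`; `(2 + 4/θ) q ^ K ≤ 1 / 2` for `q = exp (-(θ²/π))` and `q = 2 exp (-4)`, `K` large;
`base_lt_one`; `100 c / n ≤ 100 η`. -/
theorem lowerG {ε : ℝ} (hε : 0 < ε) : ∃ (C : ℕ) (η τ : ℝ), 0 < η ∧ 0 < τ ∧ τ < 1 ∧
    ∀ c n m : ℕ, C ≤ c → (c : ℝ) ≤ η * n → m ≤ n →
      (1 + ε) * Real.sqrt (Real.pi * c * n / 2) ≤ m → ∃ w : ℕ → E c,
        (∀ i ∈ Finset.range n, RCov (1 / 2) w (Finset.range n) ((Finset.range n).erase i) {i}) ∧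
        1 - ε ≤ pr (Finset.range n) m (RCov τ w (Finset.range n)) := by
  obtain ⟨C, η, τ, hη, hτ, hτ1, h⟩ := lower_G1 (ε := min ε 1) (lt_min hε one_pos) (min_le_right _ _)
  refine ⟨C, η, τ, hη, hτ, hτ1, fun c n m hc hcn hmn hm => ?_⟩
  obtain ⟨w, hw1, hw2⟩ := h c n m hc hcn hmn (by
    refine le_trans ?_ hm
    exact mul_le_mul_of_nonneg_right (by linarith [min_le_left ε 1]) (Real.sqrt_nonneg _))
  exact ⟨w, hw1, by linarith [min_le_left ε 1]⟩

end Pool.Agent.H.MP_4bcbbd_co.G
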