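import Pool.Agent.H.MP_4bcbbd_co.h39g.Upper
import Pool.Agent.H.MP_4bcbbd_co.h39g.Lower
import Pool.Agent.H.MP_4bcbbd_co.h39f.Final

/-!
MP_4bcbbd_co, theorem G: the number of vertices is `2 (d + c)`, `c → ∞`, `c = o(d)`.
-/

set_option autoImplicit false

namespace Pool.Agent.H.MP_4bcbbd_co.G

open scoped BigOperators RealInnerProductSpace
open Pool.Agent.H.MP_4bcbbd_co.F

/-- the size of the complement. -/
theorem final_cast {c d i : ℕ} (hi : i < d) :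
    ((d + c - (i + 1) : ℕ) : ℝ) = ((d : ℝ) - i) + (c - 1) := by
  rw [Nat.cast_sub (by omega)]
  push_cast
  ring

/-- `c ≤ √η √(c d)`, compared with `√(π c d / 2)`. -/
theorem final_small {c d : ℕ} {η e : ℝ} (he : 0 ≤ e) (hη : η ≤ e ^ 2)
    (h : (c : ℝ) ≤ η * d) : (c : ℝ) ≤ e * Real.sqrt (Real.pi * c * d / 2) := by
  have hc0 : (0 : ℝ) ≤ c := Nat.cast_nonneg c
  have hd0 : (0 : ℝ) ≤ d := Nat.cast_nonneg d
  have h1 : (c : ℝ) ≤ e ^ 2 * d := h.trans (mul_le_mul_of_nonneg_right hη hd0)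
  have h2 : (c : ℝ) * c ≤ e ^ 2 * (Real.pi * c * d / 2) := by
    have h3 : (c : ℝ) * c ≤ c * (e ^ 2 * d) := mul_le_mul_of_nonneg_left h1 hc0
    have h4 : (0 : ℝ) ≤ c * (e ^ 2 * d) := by positivity
    have h5 : (1 : ℝ) ≤ Real.pi / 2 := by
      have := Real.pi_gt_three
      linarith
    calc (c : ℝ) * c ≤ c * (e ^ 2 * d) := h3
      _ ≤ Real.pi / 2 * (c * (e ^ 2 * d)) := by nlinarith
      _ = e ^ 2 * (Real.pi * c * d / 2) := by ring
  have h3 : e * Real.sqrt (Real.pi * c * d / 2) = Real.sqrt (e ^ 2 * (Real.pi * c * d / 2)) := by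
    rw [Real.sqrt_mul (sq_nonneg e), Real.sqrt_sq he]
  rw [h3]
  exact Real.le_sqrt_of_sq_le (by rw [sq]; exact h2)

/-- the threshold for `d + c` and for `d`. -/
theorem final_sqrt {c d : ℕ} {η : ℝ} (hη : 0 ≤ η) (h : (c : ℝ) ≤ η * d) :
    Real.sqrt (Real.pi * c * ((d + c : ℕ) : ℝ) / 2) ≤
      (1 + η) * Real.sqrt (Real.pi * c * d / 2) := by
  have hc0 : (0 : ℝ) ≤ c := Nat.cast_nonneg c
  have hd0 : (0 : ℝ) ≤ d := Nat.cast_nonneg d
  have h3 : (1 + η) * Real.sqrt (Real.pi * c * d / 2) =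
      Real.sqrt ((1 + η) ^ 2 * (Real.pi * c * d / 2)) := by
    rw [Real.sqrt_mul (sq_nonneg _), Real.sqrt_sq (by linarith)]
  rw [h3]
  refine Real.sqrt_le_sqrt ?_
  have h1 : ((d + c : ℕ) : ℝ) ≤ (1 + η) ^ 2 * d := by
    push_cast
    nlinarith [mul_nonneg hη hd0, mul_nonneg (mul_nonneg hη hη) hd0]
  have h2 : (0 : ℝ) ≤ Real.pi * c / 2 := by positivity
  calc Real.pi * c * ((d + c : ℕ) : ℝ) / 2 = Real.pi * c / 2 * ((d + c : ℕ) : ℝ) := by ring
    _ ≤ Real.pi * c / 2 * ((1 + η) ^ 2 * d) := mul_le_mul_of_nonneg_left h1 h2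
    _ = (1 + η) ^ 2 * (Real.pi * c * d / 2) := by ring

/-- the case `ε ≤ 1`. -/
theorem final_one {ε : ℝ} (hε : 0 < ε) (hε1 : ε ≤ 1) : ∃ (C : ℕ) (η : ℝ), 0 < η ∧ ∀ c d : ℕ, C ≤ c →
    (c : ℝ) ≤ η * d → ∀ i < d,
      ((d : ℝ) - i ≤ (1 - ε) * Real.sqrt (Real.pi * c * d / 2) → ratio c d i ≤ ε) ∧
      ((1 + ε) * Real.sqrt (Real.pi * c * d / 2) ≤ (d : ℝ) - i → 1 - ε ≤ ratio c d i) := by
  obtain ⟨C₁, η₁, hη₁, hU⟩ := upperG (ε := ε / 2) (by linarith)
  obtain ⟨C₂, η₂, τ, hη₂, hτ, hτ1, hL⟩ := lowerG (ε := ε / 2) (by linarith)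
  obtain ⟨η, hη⟩ : ∃ η : ℝ, η = min (min η₁ η₂) (min 1 (min (ε / 4) ((ε / 2) ^ 2))) := ⟨_, rfl⟩
  have hη0 : 0 < η := by
    rw [hη]
    exact lt_min (lt_min hη₁ hη₂) (lt_min one_pos (lt_min (by linarith) (by positivity)))
  have hη1 : η ≤ η₁ := by rw [hη]; exact (min_le_left _ _).trans (min_le_left _ _)
  have hη2 : η ≤ η₂ := by rw [hη]; exact (min_le_left _ _).trans (min_le_right _ _)
  have hη3 : η ≤ 1 := by rw [hη]; exact (min_le_right _ _).trans (min_le_left _ _)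
  have hη4 : η ≤ ε / 4 := by
    rw [hη]
    exact (min_le_right _ _).trans ((min_le_right _ _).trans (min_le_left _ _))
  have hη5 : η ≤ (ε / 2) ^ 2 := by
    rw [hη]
    exact (min_le_right _ _).trans ((min_le_right _ _).trans (min_le_right _ _))
  clear hη
  refine ⟨C₁ + C₂ + 2, η, hη0, fun c d hc hcd i hi => ?_⟩
  have hc2 : (2 : ℝ) ≤ c := by exact_mod_cast (by omega : 2 ≤ c)
  have hd0 : (0 : ℝ) ≤ d := Nat.cast_nonneg d
  have hcd1 : (c : ℝ) ≤ d := by nlinarith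
  have hcdn : c ≤ d := by exact_mod_cast hcd1
  have hd2 : 2 ≤ d := by omega
  have hs0 : 0 ≤ Real.sqrt (Real.pi * c * d / 2) := Real.sqrt_nonneg _
  have hn : ((d + c : ℕ) : ℝ) = d + c := by push_cast; rfl
  have hcn : ∀ x : ℝ, η ≤ x → (c : ℝ) ≤ x * ((d + c : ℕ) : ℝ) := by
    intro x hx
    rw [hn]
    calc (c : ℝ) ≤ η * d := hcd
      _ ≤ η * (d + c) := by nlinarith
      _ ≤ x * (d + c) := mul_le_mul_of_nonneg_right hx (by linarith)
  constructor
  · intro h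
    refine (fin_ratio_le (b := ε / 2) (by omega) hi (by linarith) fun w => ?_).trans (by linarith)
    refine hU c _ (Finset.range (d + c)) (by omega) ?_ ?_ w
    · rw [Finset.card_range]
      exact hcn _ hη1
    · rw [Finset.card_range, final_cast hi]
      have h1 : (c : ℝ) ≤ ε / 2 * Real.sqrt (Real.pi * c * d / 2) :=
        final_small (by linarith) hη5 hcd
      have h2 : Real.sqrt (Real.pi * c * d / 2) ≤
          Real.sqrt (Real.pi * c * ((d + c : ℕ) : ℝ) / 2) := by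
        refine Real.sqrt_le_sqrt ?_
        rw [hn]
        have : (0 : ℝ) ≤ Real.pi * c := by positivity
        nlinarith
      calc (d : ℝ) - i + (c - 1) ≤ (1 - ε) * Real.sqrt (Real.pi * c * d / 2) +
            ε / 2 * Real.sqrt (Real.pi * c * d / 2) := by linarith
        _ = (1 - ε / 2) * Real.sqrt (Real.pi * c * d / 2) := by ring
        _ ≤ (1 - ε / 2) * Real.sqrt (Real.pi * c * ((d + c : ℕ) : ℝ) / 2) :=
          mul_le_mul_of_nonneg_left h2 (by linarith)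
  · intro h
    obtain ⟨w, hw1, hw2⟩ := hL c (d + c) (d + c - (i + 1)) (by omega) (hcn _ hη2) (by omega) (by
      rw [final_cast hi]
      have h1 := final_sqrt hη0.le hcd
      have h2 : (1 + ε / 2) * (1 + η) ≤ 1 + ε := by nlinarith
      calc (1 + ε / 2) * Real.sqrt (Real.pi * c * ((d + c : ℕ) : ℝ) / 2) ≤
            (1 + ε / 2) * ((1 + η) * Real.sqrt (Real.pi * c * d / 2)) :=
          mul_le_mul_of_nonneg_left h1 (by linarith)
        _ = (1 + ε / 2) * (1 + η) * Real.sqrt (Real.pi * c * d / 2) := by ring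
        _ ≤ (1 + ε) * Real.sqrt (Real.pi * c * d / 2) := mul_le_mul_of_nonneg_right h2 hs0
        _ ≤ (d : ℝ) - i + (c - 1) := by linarith)
    obtain ⟨V, hV, hS, hcard, hV2⟩ := fin_poly (i := i) hd2 hi hτ hτ1 hw1
    have hmax := C.fc_le_maxFaces (i := i) (by omega : 0 < d) hV hS hcard
    refine (by linarith : 1 - ε ≤ 1 - ε / 2).trans (hw2.trans ?_)
    unfold ratio
    have hC : (0 : ℝ) < ((d + c).choose (i + 1) : ℝ) := by
      exact_mod_cast Nat.choose_pos (by omega)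
    rw [le_div_iff₀ (by positivity)]
    refine hV2.trans ?_
    exact_mod_cast hmax

/-- PROOF: `fin_ratio_le`, `upperG`, `fin_poly`, `lowerG`, `C.fc_le_maxFaces`; `n = d + c`, `m = d + c - (i + 1) = (d - i) + (c - 1)`,
`c - 1 ≤ √η √(c d)`. -/
theorem mainG {ε : ℝ} (hε : 0 < ε) : ∃ (C : ℕ) (η : ℝ), 0 < η ∧ ∀ c d : ℕ, C ≤ c →
    (c : ℝ) ≤ η * d → ∀ i < d,
      ((d : ℝ) - i ≤ (1 - ε) * Real.sqrt (Real.pi * c * d / 2) → ratio c d i ≤ ε) ∧
      ((1 + ε) * Real.sqrt (Real.pi * c * d / 2) ≤ (d : ℝ) - i → 1 - ε ≤ ratio c d i) := by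
  obtain ⟨C₀, η, hη, h⟩ := final_one (ε := min ε 1) (lt_min hε one_pos) (min_le_right _ _)
  refine ⟨C₀, η, hη, fun c d hc hcd i hi => ?_⟩
  have he : min ε 1 ≤ ε := min_le_left _ _
  have hs0 : 0 ≤ Real.sqrt (Real.pi * c * d / 2) := Real.sqrt_nonneg _
  obtain ⟨h1, h2⟩ := h c d hc hcd i hi
  constructor
  · intro h3
    refine (h1 (h3.trans ?_)).trans he
    exact mul_le_mul_of_nonneg_right (by linarith) hs0
  · intro h3
    refine le_trans (by linarith) (h2 (le_trans ?_ h3))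
    exact mul_le_mul_of_nonneg_right (by linarith) hs0

end Pool.Agent.H.MP_4bcbbd_co.G
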