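import Pool.Agent.H.MP_4bcbbd_co.h39g.Cube
import Pool.Agent.H.MP_4bcbbd_co.h39f.Clt

/-!
MP_4bcbbd_co, theorem G: the mean of the absolute value of a Rademacher sum with small coefficients.
-/

set_option autoImplicit false

namespace Pool.Agent.H.MP_4bcbbd_co.G

open scoped BigOperators RealInnerProductSpace
open Pool.Agent.H.MP_4bcbbd_co.F
open MeasureTheory

lemma oned_integrable (x : ℝ) :
    Integrable (fun t : ℝ => |x + t|) (ProbabilityTheory.gaussianReal 0 1) := by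
  have h : Integrable (fun t : ℝ => t) (ProbabilityTheory.gaussianReal 0 1) := by
    have := ProbabilityTheory.memLp_id_gaussianReal (μ := 0) (v := 1) 1
    exact (memLp_one_iff_integrable.1 this)
  exact ((integrable_const x).add h).abs

lemma oned_tent (a : ℝ) (ha : 0 ≤ a) : ∫ t : ℝ, max (a - |t|) 0 = a ^ 2 := by
  rw [integral_comp_abs (f := fun s : ℝ => max (a - s) 0)]
  have h1 : ∫ s in Set.Ioi (0 : ℝ), max (a - s) 0 = ∫ s in Set.Ioc (0 : ℝ) a, max (a - s) 0 := by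
    apply setIntegral_eq_of_subset_of_forall_sdiff_eq_zero measurableSet_Ioi Set.Ioc_subset_Ioi_self
    intro s hs
    have h2 : a < s := by
      by_contra hcon
      exact hs.2 ⟨hs.1, not_lt.1 hcon⟩
    exact max_eq_right (by linarith)
  have h2 : ∫ s in Set.Ioc (0 : ℝ) a, max (a - s) 0 = ∫ s in Set.Ioc (0 : ℝ) a, (a - s) := by
    apply setIntegral_congr_fun measurableSet_Ioc
    intro s hs
    exact max_eq_left (by linarith [hs.2])
  rw [h1, h2, ← intervalIntegral.integral_of_le ha]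
  rw [intervalIntegral.integral_sub (by simp) (by simp)]
  simp
  ring

lemma oned_tent_int (a : ℝ) : Integrable (fun t : ℝ => max (a - |t|) 0) := by
  apply Continuous.integrable_of_hasCompactSupport (by fun_prop)
  apply HasCompactSupport.of_support_subset_isCompact (isCompact_Icc (a := -a) (b := a))
  intro t ht
  rw [Function.mem_support] at ht
  have h : |t| ≤ a := by
    by_contra hcon
    exact ht (max_eq_right (by linarith [not_le.1 hcon]))
  exact abs_le.1 h

lemma oned_gauss (x : ℝ) : ∫ t, |x + t| ∂(ProbabilityTheory.gaussianReal 0 1) ≤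
    Real.sqrt (2 / Real.pi) * (1 + x ^ 2 / 2) := by
  have hpi := Real.pi_pos
  have hneg : ∫ t, |x - t| ∂(ProbabilityTheory.gaussianReal 0 1) =
      ∫ t, |x + t| ∂(ProbabilityTheory.gaussianReal 0 1) := by
    have h1 : (ProbabilityTheory.gaussianReal 0 1).map (fun t => -t) =
        ProbabilityTheory.gaussianReal 0 1 := by
      rw [ProbabilityTheory.gaussianReal_map_neg]
      simp
    conv_rhs => rw [← h1]
    rw [integral_map (by fun_prop) (by fun_prop)]
    simp [sub_eq_add_neg]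
  have i1 := oned_integrable x
  have i2 : Integrable (fun t : ℝ => |x - t|) (ProbabilityTheory.gaussianReal 0 1) := by
    have h := oned_integrable (-x)
    refine h.congr (Filter.Eventually.of_forall fun t => ?_)
    show |-x + t| = |x - t|
    rw [show -x + t = -(x - t) by ring, abs_neg]
  have i3 : Integrable (fun t : ℝ => |t|) (ProbabilityTheory.gaussianReal 0 1) := by
    have h := oned_integrable 0
    simpa using h
  have i4 : Integrable (fun t : ℝ => max (|x| - |t|) 0) (ProbabilityTheory.gaussianReal 0 1) := by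
    refine Integrable.mono' (integrable_const |x|) (by fun_prop)
      (Filter.Eventually.of_forall fun t => ?_)
    rw [Real.norm_of_nonneg (le_max_right _ _)]
    exact max_le (by linarith [abs_nonneg t]) (abs_nonneg x)
  have h2 : ∫ t, |x + t| ∂(ProbabilityTheory.gaussianReal 0 1) =
      ∫ t, (|x + t| + |x - t|) / 2 ∂(ProbabilityTheory.gaussianReal 0 1) := by
    rw [integral_div, integral_add i1 i2, hneg]
    ring
  have h3 : ∫ t, (|x + t| + |x - t|) / 2 ∂(ProbabilityTheory.gaussianReal 0 1) ≤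
      ∫ t, (|t| + max (|x| - |t|) 0) ∂(ProbabilityTheory.gaussianReal 0 1) := by
    refine integral_mono ((i1.add i2).div_const 2) (i3.add i4) fun t => ?_
    show (|x + t| + |x - t|) / 2 ≤ |t| + max (|x| - |t|) 0
    have hm1 := le_max_left (|x| - |t|) 0
    have hm2 := le_max_right (|x| - |t|) 0
    rcases abs_cases x with hx | hx <;> rcases abs_cases t with ht | ht <;>
      rcases abs_cases (x + t) with h | h <;> rcases abs_cases (x - t) with h' | h' <;>
      linarith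
  have h4 : ∫ t, max (|x| - |t|) 0 ∂(ProbabilityTheory.gaussianReal 0 1) ≤
      (Real.sqrt (2 * Real.pi))⁻¹ * x ^ 2 := by
    rw [ProbabilityTheory.integral_gaussianReal_eq_integral_smul one_ne_zero]
    have h5 : ∫ t, ProbabilityTheory.gaussianPDFReal 0 1 t • max (|x| - |t|) 0 ≤
        ∫ t, (Real.sqrt (2 * Real.pi))⁻¹ * max (|x| - |t|) 0 := by
      refine integral_mono_of_nonneg (Filter.Eventually.of_forall fun t => ?_)
        ((oned_tent_int |x|).const_mul _) (Filter.Eventually.of_forall fun t => ?_)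
      · exact mul_nonneg (ProbabilityTheory.gaussianPDFReal_nonneg _ _ _) (le_max_right _ _)
      · show ProbabilityTheory.gaussianPDFReal 0 1 t * max (|x| - |t|) 0 ≤ _
        refine mul_le_mul_of_nonneg_right ?_ (le_max_right _ _)
        simp only [ProbabilityTheory.gaussianPDFReal, NNReal.coe_one, mul_one, sub_zero]
        refine mul_le_of_le_one_right (by positivity) ?_
        rw [Real.exp_le_one_iff]
        nlinarith [sq_nonneg t]
    refine h5.trans ?_
    rw [integral_const_mul, oned_tent _ (abs_nonneg x), sq_abs]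
  rw [h2]
  refine h3.trans ?_
  rw [integral_add i3 i4, D7u.gb_abs_gauss]
  have h6 : (Real.sqrt (2 * Real.pi))⁻¹ = Real.sqrt (2 / Real.pi) * (1 / 2) := by
    have h7 : Real.sqrt (2 * Real.pi) * Real.sqrt (2 / Real.pi) = 2 := by
      rw [← Real.sqrt_mul (by positivity), show 2 * Real.pi * (2 / Real.pi) = 2 ^ 2 by
        field_simp, Real.sqrt_sq (by norm_num)]
    have h8 : (0 : ℝ) < Real.sqrt (2 * Real.pi) := by positivity
    field_simp
    linarith
  rw [h6] at h4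
  linarith

/-- PROOF: the mean of `|x + g|` over `g` and `- g` is `max |x| |g| ≤ |g| + (|x| - |g|)⁺`, and
`∫ (|x| - |g|)⁺ ≤ (2 π) ^ (-1/2) ∫_{-|x|}^{|x|} (|x| - |t|) dt = (2 π) ^ (-1/2) x ^ 2`. Here `e` is a unit vector of `E 1`. -/
theorem gauss_abs {e : E 1} (he : ‖e‖ = 1) (x : ℝ) :
    ∫ u, |x + ⟪u, e⟫| ∂(gam 1) ≤ Real.sqrt (2 / Real.pi) * (1 + x ^ 2 / 2) := by
  have h1 : ∫ u, |x + ⟪u, e⟫| ∂(gam 1) = ∫ t, |x + t| ∂(ProbabilityTheory.gaussianReal 0 1) := by
    rw [gam_eq]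
    have h2 := D7u.gb_law (m := 1) e
    rw [he] at h2
    simp only [one_mul, Measure.map_id'] at h2
    rw [← h2, integral_map (by fun_prop) (by fun_prop)]
    simp_rw [real_inner_comm]
  rw [h1]
  exact oned_gauss x

lemma oned_law {c : ℕ} (w : ℕ → E c) (B : Finset ℕ) (f : E c → ℝ) :
    ∫ u, f u ∂(lawM w B) = mA B (fun A => f (sm w A B)) := by
  unfold lawM mA
  rw [integral_smul_measure, integral_finsetSum_measure]
  · have h1 : ∀ A ∈ B.powerset, ∫ x, f x ∂(Measure.dirac (sm w A B)) = f (sm w A B) :=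
      fun A _ => integral_dirac _ _
    rw [Finset.sum_congr rfl h1, ENNReal.toReal_inv, ENNReal.toReal_pow, ENNReal.toReal_ofNat,
      smul_eq_mul, inv_mul_eq_div]
  · intro A _
    exact integrable_dirac (by simp)

lemma oned_mean_sq {S : Finset ℕ} (a : ℕ → ℝ) (x : ℝ) :
    mA S (fun A => (x + ∑ i ∈ S, sg A i * a i) ^ 2) = x ^ 2 + ∑ i ∈ S, a i ^ 2 := by
  unfold mA
  rw [rad_two S a x]
  field_simp

/-- PROOF: by contradiction: sequences `S k`, `a k`, `x k` with `|a k i| ≤ 1 / (k + 1)`, a subsequence with `x k → x`; `clt` for `c = 1`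
(`w i = a i • e`, `Iso`), the bounded continuous function `t ↦ min |x + t| M`, `|x + t| ≤ min |x + t| M + (x + t) ^ 2 / M`, second moments
(`rad_sq`), `gauss_abs`. -/
theorem one_d_limit {ε : ℝ} (hε : 0 < ε) : ∃ δ : ℝ, 0 < δ ∧ ∀ (S : Finset ℕ) (a : ℕ → ℝ) (x : ℝ),
    ∑ i ∈ S, a i ^ 2 = 1 → (∀ i ∈ S, |a i| ≤ δ) → |x| ≤ 2 →
      mA S (fun A => |x + ∑ i ∈ S, sg A i * a i|) ≤
        Real.sqrt (2 / Real.pi) * (1 + x ^ 2 / 2) + ε := by
  by_contra hcon
  push Not at hcon
  have hc : ∀ k : ℕ, ∃ (S : Finset ℕ) (a : ℕ → ℝ) (x : ℝ),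
      ∑ i ∈ S, a i ^ 2 = 1 ∧ (∀ i ∈ S, |a i| ≤ 1 / ((k : ℝ) + 1)) ∧ |x| ≤ 2 ∧
      Real.sqrt (2 / Real.pi) * (1 + x ^ 2 / 2) + ε <
        mA S (fun A => |x + ∑ i ∈ S, sg A i * a i|) := fun k => by
    obtain ⟨S, a, x, h1, h2, h3, h4⟩ := hcon (1 / ((k : ℝ) + 1)) (by positivity)
    exact ⟨S, a, x, h1, h2, h3, h4⟩
  choose S a x h1 h2 h3 h4 using hc
  have hx : ∀ k, x k ∈ Set.Icc (-2 : ℝ) 2 := fun k => abs_le.1 (h3 k)
  obtain ⟨x₀, hx₀, φ, hφ, hlim⟩ := isCompact_Icc.tendsto_subseq hx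
  obtain ⟨e, he⟩ : ∃ e : E 1, ‖e‖ = 1 := ⟨EuclideanSpace.single 0 1, by simp⟩
  have hin : ∀ u : E 1, ⟪u, e⟫ ^ 2 = ‖u‖ ^ 2 := by
    intro u
    have e1 : ‖e‖ ^ 2 = 1 := by rw [he]; norm_num
    rw [EuclideanSpace.norm_sq_eq, Fin.sum_univ_one, Real.norm_eq_abs, sq_abs] at e1
    rw [EuclideanSpace.norm_sq_eq, Fin.sum_univ_one, Real.norm_eq_abs, sq_abs]
    have e2 : ⟪u, e⟫ = u 0 * e 0 := by
      rw [PiLp.inner_apply, Fin.sum_univ_one]
      simp [mul_comm]
    rw [e2, mul_pow, e1, mul_one]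
  have hsm : ∀ (a : ℕ → ℝ) (A S : Finset ℕ),
      ⟪sm (fun i => a i • e) A S, e⟫ = ∑ i ∈ S, sg A i * a i := by
    intro a A S
    rw [real_inner_comm, inner_sm]
    refine Finset.sum_congr rfl fun i _ => ?_
    rw [real_inner_smul_right, real_inner_self_eq_norm_sq, he]
    ring
  have hI : ∀ n, Iso (fun i => a (φ n) i • e) (S (φ n)) := by
    intro n u
    have : ∀ i ∈ S (φ n), ⟪u, a (φ n) i • e⟫ ^ 2 = a (φ n) i ^ 2 * ‖u‖ ^ 2 := by
      intro i _
      rw [real_inner_smul_right, mul_pow, hin]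
    rw [Finset.sum_congr rfl this, ← Finset.sum_mul, h1, one_mul]
  have hδ : Filter.Tendsto (fun n => 1 / (((φ n : ℕ) : ℝ) + 1)) Filter.atTop (nhds 0) :=
    (tendsto_one_div_add_atTop_nhds_zero_nat (𝕜 := ℝ)).comp hφ.tendsto_atTop
  have hclt := clt hI hδ (fun n i hi => by
    rw [norm_smul, he, mul_one, Real.norm_eq_abs]
    exact h2 (φ n) i hi)
  rw [ProbabilityMeasure.tendsto_iff_forall_integral_tendsto] at hclt
  -- the truncated function
  set M : ℝ := 20 / ε with hM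
  have hMpos : 0 < M := by positivity
  let g : BoundedContinuousFunction (E 1) ℝ :=
    BoundedContinuousFunction.ofNormedAddCommGroup (fun u : E 1 => min |x₀ + ⟪u, e⟫| M)
      (by fun_prop) M (fun u => by
        rw [Real.norm_of_nonneg (le_min (abs_nonneg _) hMpos.le)]
        exact min_le_right _ _)
  have hg := hclt g
  have hgl : ∫ u, g u ∂((gamP 1 : ProbabilityMeasure (E 1)) : Measure (E 1)) ≤
      Real.sqrt (2 / Real.pi) * (1 + x₀ ^ 2 / 2) := by
    refine le_trans ?_ (gauss_abs he x₀)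
    show ∫ u, g u ∂(gam 1) ≤ _
    refine integral_mono_of_nonneg (Filter.Eventually.of_forall fun u => ?_) ?_
      (Filter.Eventually.of_forall fun u => ?_)
    · exact le_min (abs_nonneg _) hMpos.le
    · have hi : Integrable (fun u : E 1 => ⟪u, e⟫) (gam 1) := by
        refine Integrable.mono' (integrable_norm_gam 1) (by fun_prop)
          (Filter.Eventually.of_forall fun u => ?_)
        have := norm_inner_le_norm (𝕜 := ℝ) u e
        rw [he, mul_one] at this
        exact this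
      exact ((integrable_const x₀).add hi).abs
    · exact min_le_left _ _
  have hev1 := hg.eventually (gt_mem_nhds (lt_add_of_pos_right _ (by linarith : 0 < ε / 4)))
  have hev2 : ∀ᶠ n in Filter.atTop, |x (φ n) - x₀| < ε / 8 := by
    have := (hlim.sub_const x₀).abs
    rw [sub_self, abs_zero] at this
    exact this.eventually (gt_mem_nhds (by linarith))
  have hev3 : ∀ᶠ n in Filter.atTop, Real.sqrt (2 / Real.pi) * (1 + x₀ ^ 2 / 2) - ε / 8 <
      Real.sqrt (2 / Real.pi) * (1 + x (φ n) ^ 2 / 2) := by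
    have := (((hlim.pow 2).div_const 2).const_add 1).const_mul (Real.sqrt (2 / Real.pi))
    exact this.eventually (lt_mem_nhds (by linarith))
  obtain ⟨n, e1, e2, e3⟩ := (hev1.and (hev2.and hev3)).exists
  have e4 := h4 (φ n)
  have e5 : ∫ u, g u ∂((lawP (fun i => a (φ n) i • e) (S (φ n)) : ProbabilityMeasure (E 1)) :
      Measure (E 1)) = mA (S (φ n)) (fun A => min |x₀ + ∑ i ∈ S (φ n), sg A i * a (φ n) i| M) := by
    show ∫ u, g u ∂(lawM (fun i => a (φ n) i • e) (S (φ n))) = _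
    rw [oned_law]
    refine mA_congr fun A _ => ?_
    show min |x₀ + ⟪sm (fun i => a (φ n) i • e) A (S (φ n)), e⟫| M = _
    rw [hsm]
  rw [e5] at e1
  have e6 : mA (S (φ n)) (fun A => |x (φ n) + ∑ i ∈ S (φ n), sg A i * a (φ n) i|) ≤
      mA (S (φ n)) (fun A => (|x (φ n) - x₀| +
        min |x₀ + ∑ i ∈ S (φ n), sg A i * a (φ n) i| M) +
        1 / M * (x₀ + ∑ i ∈ S (φ n), sg A i * a (φ n) i) ^ 2) := by
    refine mA_mono fun A _ => ?_
    set Y := ∑ i ∈ S (φ n), sg A i * a (φ n) i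
    have f1 : |x (φ n) + Y| ≤ |x (φ n) - x₀| + |x₀ + Y| := by
      have := abs_add_le (x (φ n) - x₀) (x₀ + Y)
      rwa [show x (φ n) - x₀ + (x₀ + Y) = x (φ n) + Y by ring] at this
    have f2 : |x₀ + Y| ≤ min |x₀ + Y| M + 1 / M * (x₀ + Y) ^ 2 := by
      rcases le_total |x₀ + Y| M with h | h
      · rw [min_eq_left h]
        have : 0 ≤ 1 / M * (x₀ + Y) ^ 2 := by positivity
        linarith
      · rw [min_eq_right h]
        have : |x₀ + Y| ≤ 1 / M * (x₀ + Y) ^ 2 := by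
          rw [one_div, inv_mul_eq_div, le_div_iff₀ hMpos, ← sq_abs (x₀ + Y), sq]
          exact mul_le_mul_of_nonneg_left h (abs_nonneg _)
        linarith
    linarith
  rw [mA_add, mA_add, mA_const, mA_mul, oned_mean_sq, h1] at e6
  have e7 : 1 / M * (x₀ ^ 2 + 1) ≤ ε / 4 := by
    have f1 : x₀ ^ 2 ≤ 4 := by
      have := hx₀
      nlinarith [this.1, this.2]
    rw [hM, one_div_div]
    nlinarith
  linarith

lemma oned_abs_le {S : Finset ℕ} (a : ℕ → ℝ) (x : ℝ) :
    mA S (fun A => |x + ∑ i ∈ S, sg A i * a i|) ≤ Real.sqrt (x ^ 2 + ∑ i ∈ S, a i ^ 2) := by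
  refine (mA_abs_le S _).trans ?_
  rw [oned_mean_sq]

/-- PROOF: `b ^ 2 = ∑ a i ^ 2`. If `b ≤ ε τ`: the mean is `≤ |x| + b`. If `2 b ≤ |x|`: the mean is `≤ √(x ^ 2 + b ^ 2)`, and
`(4/π - 1) x ^ 2 ≥ (1 - 2/π) b ^ 2`. Otherwise divide by `b`: `one_d_limit` with `a i / b`, `|a i / b| ≤ δ τ / b ≤ δ / ε`, and
`(2/π) (1 + y ^ 2 / 2) ^ 2 ≤ (2/π) (1 + 2 y ^ 2)` for `|y| ≤ 2`. -/
theorem one_d {ε : ℝ} (hε : 0 < ε) : ∃ δ : ℝ, 0 < δ ∧ ∀ (S : Finset ℕ) (a : ℕ → ℝ) (x τ : ℝ),
    0 ≤ τ → ∑ i ∈ S, a i ^ 2 ≤ τ ^ 2 → (∀ i ∈ S, |a i| ≤ δ * τ) →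
      mA S (fun A => |x + ∑ i ∈ S, sg A i * a i|) ≤
        Real.sqrt (4 / Real.pi * x ^ 2 + 2 / Real.pi * ∑ i ∈ S, a i ^ 2) + ε * τ := by
  obtain ⟨δ₀, hδ₀, hlim⟩ := one_d_limit hε
  refine ⟨ε * δ₀, by positivity, ?_⟩
  intro S a x τ hτ hsum ha
  have hpi := Real.pi_pos
  have hpi1 := Real.pi_gt_three
  have hpi2 := Real.pi_lt_d2
  have hV0 : 0 ≤ ∑ i ∈ S, a i ^ 2 := Finset.sum_nonneg fun i _ => sq_nonneg _
  set V := ∑ i ∈ S, a i ^ 2 with hV
  set b := Real.sqrt V with hb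
  have hb0 : 0 ≤ b := Real.sqrt_nonneg _
  have hbsq : b ^ 2 = V := Real.sq_sqrt hV0
  have hbτ : b ≤ τ := by
    rw [hb]
    exact (Real.sqrt_le_sqrt hsum).trans (by rw [Real.sqrt_sq hτ])
  have h4 : 1 ≤ 4 / Real.pi := by
    rw [le_div_iff₀ hpi]
    linarith
  rcases le_total b (ε * τ) with hA | hA
  · -- small variance
    have h1 : mA S (fun A => |x + ∑ i ∈ S, sg A i * a i|) ≤
        mA S (fun A => |x| + |0 + ∑ i ∈ S, sg A i * a i|) := by
      refine mA_mono fun A _ => ?_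
      rw [zero_add]
      exact abs_add_le _ _
    rw [mA_add, mA_const] at h1
    have h2 := oned_abs_le (S := S) a 0
    rw [← hV, show (0 : ℝ) ^ 2 + V = V by ring, ← hb] at h2
    have h3 : |x| ≤ Real.sqrt (4 / Real.pi * x ^ 2 + 2 / Real.pi * V) := by
      rw [← Real.sqrt_sq_eq_abs]
      refine Real.sqrt_le_sqrt ?_
      have f1 : 0 ≤ 2 / Real.pi * V := by positivity
      nlinarith [sq_nonneg x]
    linarith
  rcases le_total (2 * b) |x| with hB | hB
  · -- large offset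
    refine (oned_abs_le a x).trans ?_
    have h1 : Real.sqrt (x ^ 2 + ∑ i ∈ S, a i ^ 2) ≤
        Real.sqrt (4 / Real.pi * x ^ 2 + 2 / Real.pi * V) := by
      refine Real.sqrt_le_sqrt ?_
      rw [← hV]
      have f1 : 4 * V ≤ x ^ 2 := by
        rw [← hbsq, ← sq_abs x]
        nlinarith [abs_nonneg x]
      have f2 : (4 / Real.pi * x ^ 2 + 2 / Real.pi * V) - (x ^ 2 + V) =
          ((4 - Real.pi) * x ^ 2 - (Real.pi - 2) * V) / Real.pi := by
        field_simp
        ring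
      have f3 : 0 ≤ ((4 - Real.pi) * x ^ 2 - (Real.pi - 2) * V) / Real.pi := by
        apply div_nonneg _ hpi.le
        nlinarith [sq_nonneg x]
      linarith
    have h2 : 0 ≤ ε * τ := by positivity
    linarith
  · by_cases hb1 : b = 0
    · have hx0 : x = 0 := by
        rw [hb1, mul_zero] at hB
        exact abs_eq_zero.1 (le_antisymm hB (abs_nonneg x))
      have h1 := oned_abs_le (S := S) a x
      rw [← hV, ← hbsq, hb1, hx0] at h1
      norm_num at h1
      rw [hx0]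
      have h2 : 0 ≤ Real.sqrt (4 / Real.pi * (0 : ℝ) ^ 2 + 2 / Real.pi * V) := Real.sqrt_nonneg _
      have h3 : 0 ≤ ε * τ := by positivity
      simp only [zero_add] at h1 ⊢
      linarith
    have hbpos : 0 < b := lt_of_le_of_ne hb0 (Ne.symm hb1)
    have g1 : ∑ i ∈ S, (a i / b) ^ 2 = 1 := by
      have : ∀ i ∈ S, (a i / b) ^ 2 = a i ^ 2 / b ^ 2 := fun i _ => div_pow _ _ _
      rw [Finset.sum_congr rfl this, ← Finset.sum_div, ← hV, hbsq, div_self]
      rw [← hbsq]
      positivity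
    have g2 : ∀ i ∈ S, |a i / b| ≤ δ₀ := by
      intro i hi
      rw [abs_div, abs_of_pos hbpos, div_le_iff₀ hbpos]
      calc |a i| ≤ ε * δ₀ * τ := ha i hi
        _ = δ₀ * (ε * τ) := by ring
        _ ≤ δ₀ * b := mul_le_mul_of_nonneg_left hA hδ₀.le
    have g3 : |x / b| ≤ 2 := by
      rw [abs_div, abs_of_pos hbpos, div_le_iff₀ hbpos]
      exact hB
    have h1 := hlim S (fun i => a i / b) (x / b) g1 g2 g3
    have h2 : mA S (fun A => |x + ∑ i ∈ S, sg A i * a i|) =
        b * mA S (fun A => |x / b + ∑ i ∈ S, sg A i * (a i / b)|) := by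
      rw [← mA_mul]
      refine mA_congr fun A _ => ?_
      rw [← abs_of_pos hbpos, ← abs_mul, abs_of_pos hbpos]
      congr 1
      rw [mul_add, mul_div_cancel₀ _ hb1, Finset.mul_sum]
      congr 1
      refine Finset.sum_congr rfl fun i _ => ?_
      field_simp
    rw [h2]
    set y := x / b with hy
    have hxy : x = b * y := by rw [hy]; field_simp
    have hy2 : y ^ 2 ≤ 4 := by
      rw [← sq_abs]
      nlinarith [abs_nonneg y]
    have h3 : b * (Real.sqrt (2 / Real.pi) * (1 + y ^ 2 / 2)) ≤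
        Real.sqrt (4 / Real.pi * x ^ 2 + 2 / Real.pi * V) := by
      apply Real.le_sqrt_of_sq_le
      rw [mul_pow, mul_pow, Real.sq_sqrt (show (0 : ℝ) ≤ 2 / Real.pi by positivity), hxy, ← hbsq]
      have f1 : (1 + y ^ 2 / 2) ^ 2 ≤ 1 + 2 * y ^ 2 := by nlinarith [sq_nonneg y]
      have f2 : 0 ≤ b ^ 2 * (2 / Real.pi) := by positivity
      calc b ^ 2 * (2 / Real.pi * (1 + y ^ 2 / 2) ^ 2)
          = b ^ 2 * (2 / Real.pi) * (1 + y ^ 2 / 2) ^ 2 := by ring
        _ ≤ b ^ 2 * (2 / Real.pi) * (1 + 2 * y ^ 2) := mul_le_mul_of_nonneg_left f1 f2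
        _ = 4 / Real.pi * (b * y) ^ 2 + 2 / Real.pi * b ^ 2 := by ring
    calc b * mA S (fun A => |y + ∑ i ∈ S, sg A i * (a i / b)|)
        ≤ b * (Real.sqrt (2 / Real.pi) * (1 + y ^ 2 / 2) + ε) :=
          mul_le_mul_of_nonneg_left h1 hb0
      _ = b * (Real.sqrt (2 / Real.pi) * (1 + y ^ 2 / 2)) + ε * b := by ring
      _ ≤ Real.sqrt (4 / Real.pi * x ^ 2 + 2 / Real.pi * V) + ε * τ :=
          add_le_add h3 (mul_le_mul_of_nonneg_left hbτ hε.le)

end Pool.Agent.H.MP_4bcbbd_co.G
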