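import Pool.Agent.H.MP_4bcbbd_co.h39g.VarX
import Pool.Agent.H.MP_4bcbbd_co.h39g.OneD

/-!
MP_4bcbbd_co, theorem G: the mean of the width of the signed sum over the short vectors.
-/

set_option autoImplicit false

namespace Pool.Agent.H.MP_4bcbbd_co.G

open scoped BigOperators RealInnerProductSpace
open Pool.Agent.H.MP_4bcbbd_co.F

open Classical in
/-- the short vectors. -/
noncomputable def sh {c : ℕ} (w : ℕ → E c) (B : Finset ℕ) (δ : ℝ) : Finset ℕ :=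
  B.filter fun i => ‖w i‖ < δ

theorem meanx_sh_sub {c : ℕ} (w : ℕ → E c) (B : Finset ℕ) (δ : ℝ) : sh w B δ ⊆ B :=
  Finset.filter_subset _ _

/-- one vector. PROOF: `S = sh w B δ`, `L = B \ S`, `mA_union`: for `A₁ ⊆ L` `one_d` with `x = ∑ j ∈ L, sg A₁ j ⟪w j, w i⟫`, `a j = ⟪w j, w i⟫`,
`τ = ‖w i‖` (`∑ j ∈ S, a j ^ 2 ≤ ‖w i‖ ^ 2` by `Iso`, `|a j| ≤ δ ‖w i‖`); then `mA_sqrt_le` over `A₁`, `mA_inner_sq`, and
`∑_{j ∈ L} a j ^ 2 + ∑_{j ∈ S} a j ^ 2 = ‖w i‖ ^ 2`. -/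
theorem mean_one {ε : ℝ} (hε : 0 < ε) : ∃ δ : ℝ, 0 < δ ∧ ∀ (c : ℕ) (w : ℕ → E c) (B : Finset ℕ),
    Iso w B → ∀ i ∈ B, mA B (fun A => |⟪sm w A B, w i⟫|) ≤
      Real.sqrt (2 / Real.pi * (‖w i‖ ^ 2 + ∑ j ∈ B \ sh w B δ, ⟪w j, w i⟫ ^ 2)) +
        ε * ‖w i‖ := by
  obtain ⟨δ, hδ, hone⟩ := one_d hε
  refine ⟨δ, hδ, fun c w B hI i hi => ?_⟩
  set S := sh w B δ with hSdef
  set L := B \ S with hLdef
  have hSB : S ⊆ B := meanx_sh_sub w B δ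
  have hdis : Disjoint L S := Finset.sdiff_disjoint
  have hLS : L ∪ S = B := Finset.sdiff_union_of_subset hSB
  have hsplit : ∑ j ∈ L, ⟪w j, w i⟫ ^ 2 + ∑ j ∈ S, ⟪w j, w i⟫ ^ 2 = ‖w i‖ ^ 2 := by
    rw [← Finset.sum_union hdis, hLS, ← hI (w i)]
    exact Finset.sum_congr rfl fun j _ => by rw [real_inner_comm]
  have hSle : ∑ j ∈ S, ⟪w j, w i⟫ ^ 2 ≤ ‖w i‖ ^ 2 := by
    have h0 : 0 ≤ ∑ j ∈ L, ⟪w j, w i⟫ ^ 2 := Finset.sum_nonneg fun j _ => sq_nonneg _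
    linarith
  have hsm : ∀ j ∈ S, |⟪w j, w i⟫| ≤ δ * ‖w i‖ := by
    intro j hj
    have h1 : ‖w j‖ < δ := (Finset.mem_filter.mp hj).2
    calc |⟪w j, w i⟫| ≤ ‖w j‖ * ‖w i‖ := abs_real_inner_le_norm _ _
      _ ≤ δ * ‖w i‖ := mul_le_mul_of_nonneg_right h1.le (norm_nonneg _)
  -- the inner mean
  have hin : ∀ A₁ ∈ L.powerset, mA S (fun A₂ => |⟪sm w (A₁ ∪ A₂) B, w i⟫|) ≤
      Real.sqrt (4 / Real.pi * ⟪w i, sm w A₁ L⟫ ^ 2 +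
        2 / Real.pi * ∑ j ∈ S, ⟪w j, w i⟫ ^ 2) + ε * ‖w i‖ := by
    intro A₁ hA₁
    have hA₁' : A₁ ⊆ L := Finset.mem_powerset.mp hA₁
    have h1 := hone S (fun j => ⟪w j, w i⟫) (⟪w i, sm w A₁ L⟫) ‖w i‖ (norm_nonneg _) hSle hsm
    refine le_trans (le_of_eq (mA_congr fun A₂ hA₂ => ?_)) h1
    have hA₂' : A₂ ⊆ S := Finset.mem_powerset.mp hA₂
    congr 1
    rw [real_inner_comm, inner_sm, inner_sm]
    rw [← hLS, Finset.sum_union hdis]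
    congr 1
    · refine Finset.sum_congr rfl fun j hj => ?_
      congr 1
      unfold sg
      have : j ∉ A₂ := fun h => Finset.disjoint_left.mp hdis hj (hA₂' h)
      simp [this]
    · refine Finset.sum_congr rfl fun j hj => ?_
      rw [real_inner_comm]
      congr 1
      unfold sg
      have : j ∉ A₁ := fun h => Finset.disjoint_left.mp hdis (hA₁' h) hj
      simp [this]
  have hpi := Real.pi_pos
  calc mA B (fun A => |⟪sm w A B, w i⟫|)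
      = mA (L ∪ S) (fun A => |⟪sm w A B, w i⟫|) := by rw [hLS]
    _ = mA L (fun A₁ => mA S (fun A₂ => |⟪sm w (A₁ ∪ A₂) B, w i⟫|)) := mA_union hdis _
    _ ≤ mA L (fun A₁ => Real.sqrt (4 / Real.pi * ⟪w i, sm w A₁ L⟫ ^ 2 +
        2 / Real.pi * ∑ j ∈ S, ⟪w j, w i⟫ ^ 2) + ε * ‖w i‖) := mA_mono hin
    _ = mA L (fun A₁ => Real.sqrt (4 / Real.pi * ⟪w i, sm w A₁ L⟫ ^ 2 +
        2 / Real.pi * ∑ j ∈ S, ⟪w j, w i⟫ ^ 2)) + ε * ‖w i‖ := by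
        rw [mA_add, mA_const]
    _ ≤ Real.sqrt (mA L (fun A₁ => 4 / Real.pi * ⟪w i, sm w A₁ L⟫ ^ 2 +
        2 / Real.pi * ∑ j ∈ S, ⟪w j, w i⟫ ^ 2)) + ε * ‖w i‖ := by
        have := mA_sqrt_le L (f := fun A₁ => 4 / Real.pi * ⟪w i, sm w A₁ L⟫ ^ 2 +
          2 / Real.pi * ∑ j ∈ S, ⟪w j, w i⟫ ^ 2) (fun A₁ _ => by positivity)
        linarith
    _ = Real.sqrt (2 / Real.pi * (‖w i‖ ^ 2 + ∑ j ∈ L, ⟪w j, w i⟫ ^ 2)) + ε * ‖w i‖ := by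
        have h2 : mA L (fun A₁ => 4 / Real.pi * ⟪w i, sm w A₁ L⟫ ^ 2 +
            2 / Real.pi * ∑ j ∈ S, ⟪w j, w i⟫ ^ 2) =
            2 / Real.pi * (‖w i‖ ^ 2 + ∑ j ∈ L, ⟪w j, w i⟫ ^ 2) := by
          rw [mA_add, mA_const, mA_mul, mA_inner_sq w (Finset.Subset.refl L) (w i)]
          have h3 : ∑ j ∈ L, ⟪w i, w j⟫ ^ 2 = ∑ j ∈ L, ⟪w j, w i⟫ ^ 2 :=
            Finset.sum_congr rfl fun j _ => by rw [real_inner_comm]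
          rw [h3, ← hsplit]
          ring
        rw [h2]

/-- PROOF: sum of `mean_one` over `S = sh w B δ`, Cauchy-Schwarz; `∑_{i ∈ S} ∑_{j ∈ L} ⟪w j, w i⟫ ^ 2 ≤ ∑_{j ∈ L} ‖w j‖ ^ 2`,
`∑_{i ∈ B} ‖w i‖ ^ 2 = c` (`Iso.sum_norm`), `∑_{i ∈ B} ‖w i‖ ≤ √|B| √c` (`Iso.sum_norm_le`). -/
theorem mean_X {ε : ℝ} (hε : 0 < ε) : ∃ δ : ℝ, 0 < δ ∧ ∀ (c : ℕ) (w : ℕ → E c) (B : Finset ℕ),
    Iso w B → mA B (fun A => ∑ i ∈ sh w B δ, |⟪sm w A B, w i⟫|) ≤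
      (Real.sqrt (2 / Real.pi) + ε) * Real.sqrt ((c : ℝ) * B.card) := by
  obtain ⟨δ, hδ, hone⟩ := mean_one hε
  refine ⟨δ, hδ, fun c w B hI => ?_⟩
  have h1 := hone c w B hI
  set S := sh w B δ with hSdef
  set L := B \ S with hLdef
  have hSB : S ⊆ B := meanx_sh_sub w B δ
  have hdis : Disjoint L S := Finset.sdiff_disjoint
  have hLS : L ∪ S = B := Finset.sdiff_union_of_subset hSB
  have hpi := Real.pi_pos
  set t : ℕ → ℝ := fun i => ‖w i‖ ^ 2 + ∑ j ∈ L, ⟪w j, w i⟫ ^ 2 with ht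
  have ht0 : ∀ i, 0 ≤ t i := fun i => by
    have : 0 ≤ ∑ j ∈ L, ⟪w j, w i⟫ ^ 2 := Finset.sum_nonneg fun j _ => sq_nonneg _
    have h2 := sq_nonneg ‖w i‖
    simp only [ht]
    linarith
  -- the sum of the `t i`
  have hsumt : ∑ i ∈ S, t i ≤ c := by
    have h3 : ∑ i ∈ S, ∑ j ∈ L, ⟪w j, w i⟫ ^ 2 ≤ ∑ j ∈ L, ‖w j‖ ^ 2 := by
      rw [Finset.sum_comm]
      refine Finset.sum_le_sum fun j _ => ?_
      rw [← hI (w j)]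
      exact Finset.sum_le_sum_of_subset_of_nonneg hSB fun i _ _ => sq_nonneg _
    have h4 : ∑ j ∈ L, ‖w j‖ ^ 2 + ∑ i ∈ S, ‖w i‖ ^ 2 = c := by
      rw [← Finset.sum_union hdis, hLS, hI.sum_norm]
    have h5 : ∑ i ∈ S, t i = ∑ i ∈ S, ‖w i‖ ^ 2 + ∑ i ∈ S, ∑ j ∈ L, ⟪w j, w i⟫ ^ 2 := by
      simp only [ht]
      rw [Finset.sum_add_distrib]
    linarith
  have hc0 : (0 : ℝ) ≤ c := Nat.cast_nonneg c
  -- Cauchy-Schwarz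
  have hcs : ∑ i ∈ S, Real.sqrt (t i) ≤ Real.sqrt ((c : ℝ) * B.card) := by
    have h6 : (∑ i ∈ S, Real.sqrt (t i)) ^ 2 ≤ (S.card : ℝ) * ∑ i ∈ S, Real.sqrt (t i) ^ 2 :=
      sq_sum_le_card_mul_sum_sq
    have h7 : ∑ i ∈ S, Real.sqrt (t i) ^ 2 = ∑ i ∈ S, t i :=
      Finset.sum_congr rfl fun i _ => Real.sq_sqrt (ht0 i)
    rw [h7] at h6
    have h8 : (S.card : ℝ) ≤ B.card := by exact_mod_cast Finset.card_le_card hSB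
    have h9 : 0 ≤ ∑ i ∈ S, t i := Finset.sum_nonneg fun i _ => ht0 i
    apply Real.le_sqrt_of_sq_le
    calc (∑ i ∈ S, Real.sqrt (t i)) ^ 2 ≤ (S.card : ℝ) * ∑ i ∈ S, t i := h6
      _ ≤ (B.card : ℝ) * c := mul_le_mul h8 hsumt h9 (Nat.cast_nonneg _)
      _ = (c : ℝ) * B.card := mul_comm _ _
  have hnorm : ∑ i ∈ S, ‖w i‖ ≤ Real.sqrt ((c : ℝ) * B.card) := by
    calc ∑ i ∈ S, ‖w i‖ ≤ ∑ i ∈ B, ‖w i‖ :=
          Finset.sum_le_sum_of_subset_of_nonneg hSB fun i _ _ => norm_nonneg _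
      _ ≤ Real.sqrt B.card * Real.sqrt c := hI.sum_norm_le
      _ = Real.sqrt ((c : ℝ) * B.card) := by
          rw [Real.sqrt_mul hc0, mul_comm]
  rw [mA_sum]
  calc ∑ i ∈ S, mA B (fun A => |⟪sm w A B, w i⟫|)
      ≤ ∑ i ∈ S, (Real.sqrt (2 / Real.pi * t i) + ε * ‖w i‖) :=
        Finset.sum_le_sum fun i hi => h1 i (hSB hi)
    _ = Real.sqrt (2 / Real.pi) * ∑ i ∈ S, Real.sqrt (t i) + ε * ∑ i ∈ S, ‖w i‖ := by
        rw [Finset.sum_add_distrib, Finset.mul_sum, Finset.mul_sum]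
        congr 1
        refine Finset.sum_congr rfl fun i _ => ?_
        rw [Real.sqrt_mul (by positivity)]
    _ ≤ Real.sqrt (2 / Real.pi) * Real.sqrt ((c : ℝ) * B.card) +
          ε * Real.sqrt ((c : ℝ) * B.card) :=
        add_le_add (mul_le_mul_of_nonneg_left hcs (Real.sqrt_nonneg _))
          (mul_le_mul_of_nonneg_left hnorm hε.le)
    _ = (Real.sqrt (2 / Real.pi) + ε) * Real.sqrt ((c : ℝ) * B.card) := by ring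

end Pool.Agent.H.MP_4bcbbd_co.G
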