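import Pool.Agent.H.MP_4bcbbd_co.h39g.Prod
import Pool.Agent.H.MP_43e44c_ag.SB.Net

/-!
MP_4bcbbd_co, theorem G: the width of independent Gaussian vectors in all directions.
-/

set_option autoImplicit false

namespace Pool.Agent.H.MP_4bcbbd_co.G

open scoped BigOperators RealInnerProductSpace
open Pool.Agent.H.MP_4bcbbd_co.F
open MeasureTheory

/-- PROOF: `Pool.MP43e44c.exists_net` (`2 c (1 + 2/θ) ^ (c-1) ≤ (2 (1 + 2/θ)) ^ c`). -/
theorem exists_net {c : ℕ} (hc : 1 ≤ c) {θ : ℝ} (hθ : 0 < θ) (hθ1 : θ ≤ 1) : ∃ U : Finset (E c),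
    (∀ u ∈ U, ‖u‖ = 1) ∧ (∀ x : E c, ‖x‖ = 1 → ∃ u ∈ U, ‖u - x‖ ≤ θ) ∧
      (U.card : ℝ) ≤ (2 + 4 / θ) ^ c := by
  have h1 : (1 : ℝ) ≤ 1 + 2 / θ := by
    have : 0 < 2 / θ := by positivity
    linarith
  obtain ⟨s, hs, hnet, hcard⟩ := Pool.MP43e44c.exists_net (H := E c) (h := c)
    (by simp) hc hθ hθ1
  refine ⟨s, hs, fun x hx => ?_, hcard.trans ?_⟩
  · obtain ⟨y, hy, hxy⟩ := hnet x hx
    exact ⟨y, hy, by rwa [norm_sub_rev]⟩
  · have h2 : 2 * (c : ℝ) ≤ 2 ^ c := by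
      obtain ⟨k, rfl⟩ : ∃ k, c = k + 1 := ⟨c - 1, by omega⟩
      have h3 : (k : ℝ) + 1 ≤ 2 ^ k := by exact_mod_cast Nat.lt_two_pow_self
      rw [pow_succ]
      push_cast
      linarith
    have h3 : (1 + 2 / θ) ^ (c - 1) ≤ (1 + 2 / θ) ^ c := pow_le_pow_right₀ h1 (Nat.sub_le c 1)
    have h4 : (2 + 4 / θ) ^ c = 2 ^ c * (1 + 2 / θ) ^ c := by
      rw [← mul_pow]
      congr 1
      ring
    rw [h4]
    exact mul_le_mul h2 h3 (by positivity) (by positivity)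

/-- deterministic part. PROOF: let `M` be the maximum of `∑ i ∈ J, |⟪u, w i⟫|` over unit vectors (compactness); `M ≤ 3 k + θ M`, so `M ≤ 4 k`;
`∑ |⟪x, w i⟫| ≥ ∑ |⟪u, w i⟫| - ∑ |⟪u - x, w i⟫| ≥ (1 - θ) √(2/π) k - 4 θ k`. -/
theorem width_of_net {c : ℕ} {θ : ℝ} (hθ : 0 < θ) (hθ1 : θ ≤ 1 / 4) {U : Finset (E c)}
    (hU : ∀ x : E c, ‖x‖ = 1 → ∃ u ∈ U, ‖u - x‖ ≤ θ) {w : ℕ → E c} {J : Finset ℕ}
    (h1 : ∀ u ∈ U, (1 - θ) * Real.sqrt (2 / Real.pi) * J.card ≤ ∑ i ∈ J, |⟪u, w i⟫|)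
    (h2 : ∀ u ∈ U, ∑ i ∈ J, |⟪u, w i⟫| ≤ 3 * (J.card : ℝ)) (u : E c) :
    (1 - 7 * θ) * Real.sqrt (2 / Real.pi) * J.card * ‖u‖ ≤ ∑ i ∈ J, |⟪u, w i⟫| := by
  classical
  have hk : (0 : ℝ) ≤ J.card := Nat.cast_nonneg _
  have hpi : (2 : ℝ) / 3 ≤ Real.sqrt (2 / Real.pi) := by
    apply Real.le_sqrt_of_sq_le
    rw [le_div_iff₀ Real.pi_pos]
    have := Real.pi_lt_d2
    nlinarith
  let f : E c → ℝ := fun x => ∑ i ∈ J, |⟪x, w i⟫|
  have hf0 : ∀ x, 0 ≤ f x := fun x => Finset.sum_nonneg fun i _ => abs_nonneg _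
  have hfs : ∀ (a : ℝ) (x : E c), f (a • x) = |a| * f x := by
    intro a x
    simp only [f, Finset.mul_sum]
    refine Finset.sum_congr rfl fun i _ => ?_
    rw [real_inner_smul_left, abs_mul]
  have hfa : ∀ x y : E c, f (x + y) ≤ f x + f y := by
    intro x y
    simp only [f, ← Finset.sum_add_distrib]
    refine Finset.sum_le_sum fun i _ => ?_
    rw [inner_add_left]
    exact abs_add_le _ _
  have hfc : Continuous f := by
    refine continuous_finset_sum _ fun i _ => ?_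
    exact (continuous_id.inner continuous_const).abs
  by_cases hu : u = 0
  · rw [hu]
    simp only [norm_zero, mul_zero]
    exact hf0 0
  have hun : 0 < ‖u‖ := norm_pos_iff.mpr hu
  have hx1 : ‖(‖u‖⁻¹ • u : E c)‖ = 1 := by
    rw [norm_smul, norm_inv, norm_norm, inv_mul_cancel₀ hun.ne']
  obtain ⟨x0, hx0, hmax⟩ := (isCompact_sphere (0 : E c) 1).exists_isMaxOn
    ⟨‖u‖⁻¹ • u, by simpa using hx1⟩ hfc.continuousOn
  have hx0' : ‖x0‖ = 1 := by simpa using hx0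
  have hM : ∀ v : E c, f v ≤ ‖v‖ * f x0 := by
    intro v
    by_cases hv : v = 0
    · rw [hv]
      simp [f]
    · have hvn : 0 < ‖v‖ := norm_pos_iff.mpr hv
      have hv1 : ‖(‖v‖⁻¹ • v : E c)‖ = 1 := by
        rw [norm_smul, norm_inv, norm_norm, inv_mul_cancel₀ hvn.ne']
      have h3 : f (‖v‖⁻¹ • v) ≤ f x0 := hmax (by simpa using hv1)
      rw [hfs, abs_of_pos (inv_pos.mpr hvn)] at h3
      calc f v = ‖v‖ * (‖v‖⁻¹ * f v) := by field_simp
        _ ≤ ‖v‖ * f x0 := mul_le_mul_of_nonneg_left h3 hvn.le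
  have hM4 : f x0 ≤ 4 * J.card := by
    obtain ⟨y, hy, hyx⟩ := hU x0 hx0'
    have h3 : f x0 ≤ f y + f (x0 - y) := by
      have := hfa y (x0 - y)
      rwa [add_sub_cancel] at this
    have h4 : f (x0 - y) ≤ θ * f x0 := by
      refine (hM _).trans (mul_le_mul_of_nonneg_right ?_ (hf0 _))
      rwa [norm_sub_rev]
    have h5 : f y ≤ 3 * (J.card : ℝ) := h2 y hy
    have h6 : θ * f x0 ≤ 1 / 4 * f x0 := mul_le_mul_of_nonneg_right hθ1 (hf0 _)
    linarith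
  have hx : (1 - 7 * θ) * Real.sqrt (2 / Real.pi) * J.card ≤ f (‖u‖⁻¹ • u) := by
    obtain ⟨y, hy, hyx⟩ := hU _ hx1
    have h3 : f y ≤ f (‖u‖⁻¹ • u) + f (y - ‖u‖⁻¹ • u) := by
      have := hfa (‖u‖⁻¹ • u) (y - ‖u‖⁻¹ • u)
      rwa [add_sub_cancel] at this
    have h4 : f (y - ‖u‖⁻¹ • u) ≤ θ * (4 * J.card) := by
      refine (hM _).trans ?_
      exact mul_le_mul hyx hM4 (hf0 _) hθ.le
    have h5 : (1 - θ) * Real.sqrt (2 / Real.pi) * J.card ≤ f y := h1 y hy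
    have h6 : θ * (4 * J.card) ≤ 6 * θ * Real.sqrt (2 / Real.pi) * J.card := by
      have : 0 ≤ θ * (J.card : ℝ) := by positivity
      nlinarith
    linarith
  rw [hfs, abs_of_pos (inv_pos.mpr hun)] at hx
  calc (1 - 7 * θ) * Real.sqrt (2 / Real.pi) * J.card * ‖u‖
      ≤ (‖u‖⁻¹ * f u) * ‖u‖ := mul_le_mul_of_nonneg_right hx hun.le
    _ = f u := by field_simp

/-- PROOF: `exists_net`, `width_of_net`, `tail_low`, `tail_up`, union bound. -/
theorem width {c : ℕ} (hc : 1 ≤ c) {θ : ℝ} (hθ : 0 < θ) (hθ1 : θ ≤ 1 / 4) (J : Finset ℕ) :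
    ∃ H : Set (ℕ → E c), MeasurableSet H ∧
      (PP c H).toReal ≤ (2 + 4 / θ) ^ c *
        (Real.exp (-(θ ^ 2 / Real.pi)) ^ J.card + (2 * Real.exp (-4)) ^ J.card) ∧
      ∀ w : ℕ → E c, w ∉ H → ∀ u : E c,
        (1 - 7 * θ) * Real.sqrt (2 / Real.pi) * J.card * ‖u‖ ≤ ∑ i ∈ J, |⟪u, w i⟫| := by
  classical
  obtain ⟨U, hU1, hU2, hU3⟩ := exists_net hc hθ (hθ1.trans (by norm_num))
  have hmeas : ∀ u : E c, Measurable fun w : ℕ → E c => ∑ i ∈ J, |⟪u, w i⟫| := by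
    intro u
    refine Finset.measurable_sum _ fun i _ => ?_
    have h1 : Measurable fun w : ℕ → E c => w i := measurable_pi_apply i
    have h2 : Continuous fun x : E c => |⟪u, x⟫| := (continuous_const.inner continuous_id).abs
    exact h2.measurable.comp h1
  let A : E c → Set (ℕ → E c) := fun u =>
    {w | ∑ i ∈ J, |⟪u, w i⟫| ≤ (1 - θ) * Real.sqrt (2 / Real.pi) * J.card}
  let B : E c → Set (ℕ → E c) := fun u => {w | 3 * (J.card : ℝ) ≤ ∑ i ∈ J, |⟪u, w i⟫|}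
  refine ⟨⋃ u ∈ U, (A u ∪ B u), ?_, ?_, ?_⟩
  · refine Finset.measurableSet_biUnion _ fun u _ => ?_
    exact (measurableSet_le (hmeas u) measurable_const).union
      (measurableSet_le measurable_const (hmeas u))
  · have h1 : ∀ u ∈ U, (PP c (A u ∪ B u)).toReal ≤
        Real.exp (-(θ ^ 2 / Real.pi)) ^ J.card + (2 * Real.exp (-4)) ^ J.card := by
      intro u hu
      have h2 := tail_low (hU1 u hu) J hθ
      have h3 := tail_up (hU1 u hu) J
      have h4 : (PP c (A u ∪ B u)).toReal ≤ (PP c (A u)).toReal + (PP c (B u)).toReal := by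
        rw [← ENNReal.toReal_add (measure_ne_top _ _) (measure_ne_top _ _)]
        exact ENNReal.toReal_mono (by finiteness) (measure_union_le _ _)
      exact h4.trans (add_le_add h2 h3)
    have h5 : (PP c (⋃ u ∈ U, (A u ∪ B u))).toReal ≤ ∑ u ∈ U, (PP c (A u ∪ B u)).toReal := by
      rw [← ENNReal.toReal_sum fun u _ => measure_ne_top _ _]
      exact ENNReal.toReal_mono (by
        refine ENNReal.sum_ne_top.mpr fun u _ => measure_ne_top _ _) (measure_biUnion_finset_le _ _)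
    refine h5.trans ((Finset.sum_le_sum h1).trans ?_)
    rw [Finset.sum_const, nsmul_eq_mul]
    exact mul_le_mul_of_nonneg_right hU3 (by positivity)
  · intro w hw u
    simp only [Set.mem_iUnion, not_exists, Set.mem_union, not_or] at hw
    refine width_of_net hθ hθ1 hU2 ?_ ?_ u
    · intro y hy
      exact (not_le.mp (hw y hy).1).le
    · intro y hy
      exact (not_le.mp (hw y hy).2).le

end Pool.Agent.H.MP_4bcbbd_co.G
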