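import Pool.Agent.H.MP_4bcbbd_co.h39g.Exp

/-!
MP_4bcbbd_co, theorem G: independent standard Gaussian vectors.
-/

set_option autoImplicit false

namespace Pool.Agent.H.MP_4bcbbd_co.G

open scoped BigOperators RealInnerProductSpace
open Pool.Agent.H.MP_4bcbbd_co.F
open MeasureTheory

/-- independent standard Gaussian vectors `w 0, w 1, ...` of `ℝ^c`. -/
noncomputable def PP (c : ℕ) : Measure (ℕ → E c) := Measure.infinitePi fun _ => gam c

instance isProb_PP (c : ℕ) : IsProbabilityMeasure (PP c) := by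
  unfold PP
  infer_instance

/-- one vector. PROOF: `measurePreserving_eval_infinitePi` or similar. -/
theorem PP_one {c : ℕ} (i : ℕ) {S : Set (E c)} (hS : MeasurableSet S) :
    PP c {w | w i ∈ S} = gam c S :=
  (measurePreserving_eval_infinitePi (fun _ : ℕ => gam c) i).measure_preimage
    hS.nullMeasurableSet

/-- independence. PROOF: `iIndepFun_infinitePi`, `iIndepFun.integral_fun_prod_comp` or `iIndepFun.mgf_sum` (look for the form in Mathlib). -/
theorem PP_prod {c : ℕ} (J : Finset ℕ) {f : E c → ℝ} (hf : Measurable f) (hf0 : ∀ x, 0 ≤ f x)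
    (hi : Integrable f (gam c)) :
    Integrable (fun w : ℕ → E c => ∏ i ∈ J, f (w i)) (PP c) ∧
      ∫ w, ∏ i ∈ J, f (w i) ∂(PP c) = (∫ x, f x ∂(gam c)) ^ J.card := by
  have h1 : Integrable (fun x : (J → E c) => ∏ i, f (x i))
      (Measure.pi fun _ : J => gam c) := Integrable.fintype_prod fun _ => hi
  have hm : (PP c).map J.restrict = Measure.pi fun _ : J => gam c :=
    Measure.infinitePi_map_restrict (μ := fun _ : ℕ => gam c)
  have e : (fun w : ℕ → E c => ∏ i ∈ J, f (w i)) =
      fun w => (fun x : (J → E c) => ∏ i, f (x i)) (J.restrict w) := by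
    ext w
    exact (Finset.prod_coe_sort J (fun i => f (w i))).symm
  constructor
  · rw [e]
    rw [← hm] at h1
    exact h1.comp_measurable (by fun_prop)
  · rw [e]
    have h2 := integral_restrict_infinitePi (μ := fun _ : ℕ => gam c) (s := J)
      (f := fun x : (J → E c) => ∏ i, f (x i)) h1.aestronglyMeasurable
    refine h2.trans ?_
    rw [integral_fintype_prod_eq_pow, Fintype.card_coe]

/-- Markov's inequality for a product of exponentials. -/
theorem prod_markov {c : ℕ} (J : Finset ℕ) {g : E c → ℝ} (hg : Measurable g)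
    (hi : Integrable (fun x => Real.exp (g x)) (gam c)) {b M : ℝ}
    (hM : ∫ x, Real.exp (g x) ∂(gam c) ≤ M) :
    (PP c {w | b * J.card ≤ ∑ i ∈ J, g (w i)}).toReal ≤ (M * Real.exp (-b)) ^ J.card := by
  obtain ⟨h1, h2⟩ := PP_prod J (f := fun x => Real.exp (g x)) hg.exp
    (fun x => (Real.exp_pos _).le) hi
  have h3 := mul_meas_ge_le_integral_of_nonneg (μ := PP c)
    (f := fun w : ℕ → E c => ∏ i ∈ J, Real.exp (g (w i)))
    (Filter.Eventually.of_forall fun w => Finset.prod_nonneg fun i _ => (Real.exp_pos _).le)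
    h1 (Real.exp (b * J.card))
  rw [h2] at h3
  have h4 : {w : ℕ → E c | Real.exp (b * J.card) ≤ ∏ i ∈ J, Real.exp (g (w i))} =
      {w | b * J.card ≤ ∑ i ∈ J, g (w i)} := by
    ext w
    simp only [Set.mem_ofPred_eq]
    rw [← Real.exp_sum, Real.exp_le_exp]
  rw [h4] at h3
  have h5 : (∫ x, Real.exp (g x) ∂(gam c)) ^ J.card ≤ M ^ J.card :=
    pow_le_pow_left₀ (integral_nonneg fun x => (Real.exp_pos _).le) hM _
  have h6 := h3.trans h5
  have h7 : Real.exp (b * J.card) = Real.exp b ^ J.card := by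
    rw [mul_comm, Real.exp_nat_mul]
  rw [h7] at h6
  rw [mul_pow, Real.exp_neg, inv_pow]
  rw [← div_eq_mul_inv, le_div_iff₀ (by positivity), mul_comm]
  exact h6

/-- PROOF: Markov's inequality with `l = θ √(2/π)`, `exp_low`, `PP_prod`. -/
theorem tail_low {c : ℕ} {u : E c} (hu : ‖u‖ = 1) (J : Finset ℕ) {θ : ℝ} (hθ : 0 < θ) :
    (PP c {w | ∑ i ∈ J, |⟪u, w i⟫| ≤ (1 - θ) * Real.sqrt (2 / Real.pi) * J.card}).toReal ≤
      Real.exp (-(θ ^ 2 / Real.pi)) ^ J.card := by
  set a : ℝ := Real.sqrt (2 / Real.pi) with ha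
  have ha0 : 0 < a := Real.sqrt_pos.2 (by positivity)
  have ha2 : a ^ 2 = 2 / Real.pi := Real.sq_sqrt (by positivity)
  have hl : 0 < θ * a := by positivity
  have hint : Integrable (fun x : E c => Real.exp (-(θ * a * |⟪u, x⟫|))) (gam c) := by
    refine (integrable_const (1 : ℝ)).mono' (by fun_prop) ?_
    refine Filter.Eventually.of_forall fun x => ?_
    rw [Real.norm_eq_abs, abs_of_pos (Real.exp_pos _), Real.exp_le_one_iff]
    have := abs_nonneg (⟪u, x⟫ : ℝ)
    nlinarith [mul_nonneg hl.le this]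
  have h := prod_markov J (g := fun x : E c => -(θ * a * |⟪u, x⟫|)) (by fun_prop) hint
    (b := -(θ * a * ((1 - θ) * a))) (exp_low hu hl.le)
  have hs : {w : ℕ → E c | ∑ i ∈ J, |⟪u, w i⟫| ≤ (1 - θ) * a * J.card} =
      {w | -(θ * a * ((1 - θ) * a)) * J.card ≤ ∑ i ∈ J, -(θ * a * |⟪u, w i⟫|)} := by
    ext w
    simp only [Set.mem_ofPred_eq]
    rw [Finset.sum_neg_distrib, ← Finset.mul_sum]
    constructor
    · intro h
      have := mul_le_mul_of_nonneg_left h hl.le
      nlinarith
    · intro h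
      have h' : θ * a * ∑ i ∈ J, |⟪u, w i⟫| ≤ θ * a * ((1 - θ) * a * J.card) := by nlinarith
      exact le_of_mul_le_mul_left h' hl
  rw [hs]
  refine h.trans (le_of_eq ?_)
  rw [← Real.exp_add]
  congr 2
  rw [← ha]
  have e1 : -(θ * a * a) + (θ * a) ^ 2 / 2 + -(-(θ * a * ((1 - θ) * a))) = -(θ ^ 2 * a ^ 2 / 2) := by
    ring
  rw [e1, ha2]
  ring

/-- PROOF: Markov's inequality, `exp_up`, `PP_prod`. -/
theorem tail_up {c : ℕ} {u : E c} (hu : ‖u‖ = 1) (J : Finset ℕ) :
    (PP c {w | 3 * (J.card : ℝ) ≤ ∑ i ∈ J, |⟪u, w i⟫|}).toReal ≤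
      (2 * Real.exp (-4)) ^ J.card := by
  have h := prod_markov J (g := fun x : E c => 2 * |⟪u, x⟫|) (by fun_prop) (exp_up_int u)
    (b := 6) (exp_up hu)
  have hs : {w : ℕ → E c | 3 * (J.card : ℝ) ≤ ∑ i ∈ J, |⟪u, w i⟫|} =
      {w | 6 * (J.card : ℝ) ≤ ∑ i ∈ J, 2 * |⟪u, w i⟫|} := by
    ext w
    simp only [Set.mem_ofPred_eq]
    rw [← Finset.mul_sum]
    constructor <;> intro h <;> linarith
  rw [hs]
  refine h.trans (le_of_eq ?_)
  rw [mul_assoc, ← Real.exp_add]
  norm_num

/-- the law of the signed sum. -/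
theorem prod_law_sm {c : ℕ} (A T : Finset ℕ) :
    (PP c).map (fun w => sm w A T) =
      (gam c).map (fun x : E c => Real.sqrt T.card • x) := by
  have hm : Measurable (fun w : ℕ → E c => sm w A T) := by
    unfold sm
    fun_prop
  have hm2 : Measurable (fun x : E c => Real.sqrt T.card • x) := by fun_prop
  have : IsProbabilityMeasure ((PP c).map (fun w => sm w A T)) :=
    Measure.isProbabilityMeasure_map hm.aemeasurable
  have : IsProbabilityMeasure ((gam c).map (fun x : E c => Real.sqrt T.card • x)) :=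
    Measure.isProbabilityMeasure_map hm2.aemeasurable
  refine Measure.ext_of_charFun ?_
  have hind : ProbabilityTheory.iIndepFun (fun (i : ℕ) (w : ℕ → E c) => sg A i • w i) (PP c) :=
    ProbabilityTheory.iIndepFun_infinitePi (P := fun _ : ℕ => gam c)
      (X := fun (i : ℕ) (x : E c) => sg A i • x) (fun i => by fun_prop)
  have h1 := (hind.restrict T).charFun_map_fun_finsetSum_eq_prod
    (s := T) (X := fun (i : ℕ) (w : ℕ → E c) => sg A i • w i)
    (fun i _ => ((measurable_pi_apply i).const_smul (sg A i)).aemeasurable)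
  have e1 : (fun w : ℕ → E c => sm w A T) = fun w => ∑ i ∈ T, sg A i • w i := rfl
  rw [e1, h1]
  ext t
  rw [Finset.prod_apply]
  have e2 : ∀ i ∈ T, charFun ((PP c).map (fun w => sg A i • w i)) t =
      Complex.exp (-((‖t‖ ^ 2 / 2 : ℝ) : ℂ)) := by
    intro i _
    have e3 : (PP c).map (fun w => sg A i • w i) = (gam c).map (fun x => sg A i • x) := by
      have e4 := (measurePreserving_eval_infinitePi (fun _ : ℕ => gam c) i).map_eq
      rw [← e4, Measure.map_map (by fun_prop) (by fun_prop)]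
      rfl
    rw [e3, charFun_map_smul, charFun_gam]
    rw [norm_smul, Real.norm_eq_abs, abs_sg, one_mul]
  rw [Finset.prod_congr rfl e2, Finset.prod_const, charFun_map_smul, charFun_gam, ← Complex.exp_nat_mul]
  congr 1
  rw [norm_smul, Real.norm_eq_abs, abs_of_nonneg (Real.sqrt_nonneg _), mul_pow,
    Real.sq_sqrt (Nat.cast_nonneg _)]
  push_cast
  ring

/-- the signed sum is `√|T|` times a standard Gaussian vector. PROOF: characteristic functions (`Measure.ext_of_charFun`, `charFun_gam`,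
`iIndepFun`), or induction on `T` with `gam_map` and convolution; then `norm_tail`. For `T = ∅` the set is everything: so `0 < |T|`. -/
theorem tail_sum {c : ℕ} (A T : Finset ℕ) (hT : 0 < T.card) {θ : ℝ} (hθ : 0 < θ) :
    (PP c {w | (1 + θ) * (T.card * c) ≤ ‖sm w A T‖ ^ 2}).toReal ≤
      ((1 + θ) * Real.exp (-θ)) ^ ((c : ℝ) / 2) := by
  have hm : Measurable (fun w : ℕ → E c => sm w A T) := by
    unfold sm
    fun_prop
  have hT' : (0 : ℝ) < T.card := by exact_mod_cast hT
  have hS : MeasurableSet {x : E c | (1 + θ) * (T.card * c) ≤ ‖x‖ ^ 2} :=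
    measurableSet_le measurable_const (by fun_prop)
  have h1 : PP c {w | (1 + θ) * (T.card * c) ≤ ‖sm w A T‖ ^ 2} =
      (PP c).map (fun w => sm w A T) {x : E c | (1 + θ) * (T.card * c) ≤ ‖x‖ ^ 2} := by
    rw [Measure.map_apply hm hS]
    rfl
  rw [h1, prod_law_sm, Measure.map_apply (by fun_prop) hS]
  have h2 : (fun x : E c => Real.sqrt T.card • x) ⁻¹' {x : E c | (1 + θ) * (T.card * c) ≤ ‖x‖ ^ 2} =
      {x : E c | (1 + θ) * c ≤ ‖x‖ ^ 2} := by
    ext x
    simp only [Set.mem_preimage, Set.mem_ofPred_eq]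
    rw [norm_smul, Real.norm_eq_abs, abs_of_nonneg (Real.sqrt_nonneg _), mul_pow,
      Real.sq_sqrt hT'.le]
    constructor
    · intro h
      have h' : (T.card : ℝ) * ((1 + θ) * c) ≤ T.card * ‖x‖ ^ 2 := by linarith
      exact le_of_mul_le_mul_left h' hT'
    · intro h
      have := mul_le_mul_of_nonneg_left h hT'.le
      linarith
  rw [h2]
  exact norm_tail hθ

theorem tail_one {c : ℕ} (i : ℕ) {r : ℝ} (hr : 0 < r) :
    (PP c {w | r ≤ ‖w i‖}).toReal ≤ c / r ^ 2 := by
  have hS : MeasurableSet {x : E c | r ≤ ‖x‖} := measurableSet_le measurable_const (by fun_prop)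
  have h := PP_one (c := c) i hS
  have h2 : {w : ℕ → E c | w i ∈ {x : E c | r ≤ ‖x‖}} = {w | r ≤ ‖w i‖} := rfl
  rw [h2] at h
  rw [h]
  exact norm_far hr

end Pool.Agent.H.MP_4bcbbd_co.G
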