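import Pool.Agent.H.MP_4bcbbd_co.h39g.MeanX

/-!
MP_4bcbbd_co, theorem G: the upper bound.
-/

set_option autoImplicit false

namespace Pool.Agent.H.MP_4bcbbd_co.G

open scoped BigOperators RealInnerProductSpace
open Pool.Agent.H.MP_4bcbbd_co.F

/-- the mean over the pairs is the mean over `A` of the means over `J`. -/
theorem upper_swap {B : Finset ℕ} {m : ℕ} (hm : m ≤ B.card) (f : Finset ℕ → Finset ℕ → ℝ) :
    ex B m f = mA B (fun A => ex B m (fun J _ => f J A)) := by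
  have hC : (0 : ℝ) < (B.card.choose m : ℝ) := by exact_mod_cast Nat.choose_pos hm
  have h1 : ∀ A : Finset ℕ, ex B m (fun J _ => f J A) =
      (∑ J ∈ B.powersetCard m, f J A) / (B.card.choose m : ℝ) := by
    intro A
    unfold ex
    have h0 : ∀ J ∈ B.powersetCard m, ∑ _A ∈ B.powerset, f J A = 2 ^ B.card * f J A := by
      intro J _
      rw [Finset.sum_const, Finset.card_powerset, nsmul_eq_mul]
      push_cast
      rfl
    rw [Finset.sum_congr rfl h0, ← Finset.mul_sum]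
    field_simp
  unfold mA
  rw [Finset.sum_congr rfl fun A _ => h1 A, ← Finset.sum_div, Finset.sum_comm]
  unfold ex
  rw [div_div]

theorem upper_ex_A {B : Finset ℕ} {m : ℕ} (hm : m ≤ B.card) (f : Finset ℕ → ℝ) :
    ex B m (fun _ A => f A) = mA B f := by
  rw [ex_A hm]
  rfl

theorem upper_card {c : ℕ} (hc : 1 ≤ c) {w : ℕ → E c} {B : Finset ℕ} (hI : Iso w B) :
    0 < B.card := by
  rw [Finset.card_pos]
  by_contra h
  rw [Finset.not_nonempty_iff_eq_empty] at h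
  have h1 := hI.sum_norm
  rw [h, Finset.sum_empty] at h1
  have h2 : (1 : ℝ) ≤ c := by exact_mod_cast hc
  linarith

/-- (1). -/
theorem upper_one {c : ℕ} (hc : 1 ≤ c) {w : ℕ → E c} {B : Finset ℕ} (hI : Iso w B) {m : ℕ}
    (hm : m ≤ B.card) {θ : ℝ} (hθ : 0 < θ) :
    pr B m (fun _ A => (θ * c) ^ 2 ≤ (‖sm w A B‖ ^ 2 - c) ^ 2) ≤ 4 / (θ ^ 2 * c) := by
  have hc0 : (0 : ℝ) < c := by exact_mod_cast hc
  have h := pr_markov (B := B) (m := m) (f := fun _ A => (‖sm w A B‖ ^ 2 - c) ^ 2)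
    (a := (θ * c) ^ 2) (by positivity) (fun _ _ _ _ => sq_nonneg _)
  rw [upper_ex_A hm] at h
  calc _ ≤ _ := h
    _ ≤ 4 * c / (θ * c) ^ 2 := div_le_div_of_nonneg_right (var_sq hI) (by positivity)
    _ = 4 / (θ ^ 2 * c) := by field_simp

/-- (2). -/
theorem upper_two {c : ℕ} (hc : 1 ≤ c) {w : ℕ → E c} {B : Finset ℕ} (hI : Iso w B) {m : ℕ}
    (hm : m ≤ B.card) {θ : ℝ} (hθ : 0 < θ) :
    pr B m (fun J A => θ ^ 2 * c ≤ ‖sm w A J‖ ^ 2) ≤ (m : ℝ) / B.card * (1 / θ ^ 2) := by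
  have hc0 : (0 : ℝ) < c := by exact_mod_cast hc
  have h := pr_markov (B := B) (m := m) (f := fun J A => ‖sm w A J‖ ^ 2)
    (a := θ ^ 2 * c) (by positivity) (fun _ _ _ _ => sq_nonneg _)
  rw [ex_norm_sq hI hm] at h
  calc _ ≤ _ := h
    _ = (m : ℝ) / B.card * (1 / θ ^ 2) := by field_simp

/-- (3). -/
theorem upper_three {c : ℕ} (hc : 1 ≤ c) {w : ℕ → E c} {B : Finset ℕ} (hI : Iso w B) {m : ℕ}
    (hm : m ≤ B.card) {θ δ : ℝ} (hθ : 0 < θ) :
    pr B m (fun _ A => θ ^ 2 * (c * B.card) ≤ ((∑ i ∈ sh w B δ, |⟪sm w A B, w i⟫|) -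
      mA B (fun A => ∑ i ∈ sh w B δ, |⟪sm w A B, w i⟫|)) ^ 2) ≤ 2 / (θ ^ 2 * c) := by
  have hc0 : (0 : ℝ) < c := by exact_mod_cast hc
  have hn0 : (0 : ℝ) < B.card := by exact_mod_cast upper_card hc hI
  have h := pr_markov (B := B) (m := m)
    (f := fun _ A => ((∑ i ∈ sh w B δ, |⟪sm w A B, w i⟫|) -
      mA B (fun A => ∑ i ∈ sh w B δ, |⟪sm w A B, w i⟫|)) ^ 2)
    (a := θ ^ 2 * (c * B.card)) (by positivity) (fun _ _ _ _ => sq_nonneg _)
  rw [upper_ex_A hm] at h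
  have hS : sh w B δ ⊆ B := Finset.filter_subset _ _
  calc _ ≤ _ := h
    _ ≤ 2 * B.card / (θ ^ 2 * (c * B.card)) :=
        div_le_div_of_nonneg_right (var_X hI hS) (by positivity)
    _ = 2 / (θ ^ 2 * c) := by field_simp

/-- (4). -/
theorem upper_four {c : ℕ} (hc : 1 ≤ c) {w : ℕ → E c} {B : Finset ℕ} (hI : Iso w B) {m : ℕ}
    (hm : m ≤ B.card) {θ δ : ℝ} (hθ : 0 < θ) :
    pr B m (fun J A => (θ * c) ^ 2 ≤ ((∑ i ∈ J, if i ∈ sh w B δ then |⟪sm w A B, w i⟫| else 0) -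
      (m : ℝ) / B.card * ∑ i ∈ B, if i ∈ sh w B δ then |⟪sm w A B, w i⟫| else 0) ^ 2) ≤
      (m : ℝ) / B.card * (1 / (θ ^ 2 * c)) := by
  have hc0 : (0 : ℝ) < c := by exact_mod_cast hc
  have h := pr_markov (B := B) (m := m)
    (f := fun J A => ((∑ i ∈ J, if i ∈ sh w B δ then |⟪sm w A B, w i⟫| else 0) -
      (m : ℝ) / B.card * ∑ i ∈ B, if i ∈ sh w B δ then |⟪sm w A B, w i⟫| else 0) ^ 2)
    (a := (θ * c) ^ 2) (by positivity) (fun _ _ _ _ => sq_nonneg _)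
  have h1 : ex B m (fun J A => ((∑ i ∈ J, if i ∈ sh w B δ then |⟪sm w A B, w i⟫| else 0) -
      (m : ℝ) / B.card * ∑ i ∈ B, if i ∈ sh w B δ then |⟪sm w A B, w i⟫| else 0) ^ 2) ≤
      (m : ℝ) / B.card * c := by
    rw [upper_swap hm]
    have h2 : mA B (fun A => (m : ℝ) / B.card * ‖sm w A B‖ ^ 2) = (m : ℝ) / B.card * c := by
      rw [mA_mul, mA_norm_sq w (Finset.Subset.refl B), hI.sum_norm]
    rw [← h2]
    refine mA_mono fun A _ => ?_
    refine (ex_J_var hm fun i => if i ∈ sh w B δ then |⟪sm w A B, w i⟫| else 0).trans ?_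
    refine mul_le_mul_of_nonneg_left ?_ (by positivity)
    rw [← hI (sm w A B)]
    refine Finset.sum_le_sum fun i _ => ?_
    split_ifs
    · rw [sq_abs]
    · rw [zero_pow two_ne_zero]
      exact sq_nonneg _
  calc _ ≤ _ := h
    _ ≤ (m : ℝ) / B.card * c / (θ * c) ^ 2 := div_le_div_of_nonneg_right h1 (by positivity)
    _ = (m : ℝ) / B.card * (1 / (θ ^ 2 * c)) := by field_simp

/-- (5). -/
theorem upper_five {c : ℕ} (hc : 1 ≤ c) {w : ℕ → E c} {B : Finset ℕ} (hI : Iso w B) {m : ℕ}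
    (hm : m ≤ B.card) {θ δ : ℝ} (hθ : 0 < θ) (hδ : 0 < δ) :
    pr B m (fun J A => θ * c ≤ ∑ i ∈ J, if i ∈ sh w B δ then 0 else |⟪sm w A B, w i⟫|) ≤
      (m : ℝ) / B.card * (1 / (δ * θ)) := by
  have hc0 : (0 : ℝ) < c := by exact_mod_cast hc
  have h := pr_markov (B := B) (m := m)
    (f := fun J A => ∑ i ∈ J, if i ∈ sh w B δ then 0 else |⟪sm w A B, w i⟫|)
    (a := θ * c) (by positivity) (fun J _ A _ => Finset.sum_nonneg fun i _ => by
      split_ifs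
      · exact le_rfl
      · exact abs_nonneg _)
  have h1 : ex B m (fun J A => ∑ i ∈ J, if i ∈ sh w B δ then 0 else |⟪sm w A B, w i⟫|) ≤
      (m : ℝ) / B.card * (c / δ) := by
    rw [upper_swap hm]
    have h2 : mA B (fun A => ex B m (fun J _ =>
        ∑ i ∈ J, if i ∈ sh w B δ then 0 else |⟪sm w A B, w i⟫|)) =
        mA B (fun A => (m : ℝ) / B.card *
          ∑ i ∈ B, if i ∈ sh w B δ then 0 else |⟪sm w A B, w i⟫|) :=
      mA_congr fun A _ => ex_J hm fun i => if i ∈ sh w B δ then 0 else |⟪sm w A B, w i⟫|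
    rw [h2, mA_mul, mA_sum B B (fun i A => if i ∈ sh w B δ then 0 else |⟪sm w A B, w i⟫|)]
    refine mul_le_mul_of_nonneg_left ?_ (by positivity)
    rw [← hI.sum_norm, Finset.sum_div]
    refine Finset.sum_le_sum fun i hi => ?_
    by_cases his : i ∈ sh w B δ
    · have h3 : mA B (fun A => if i ∈ sh w B δ then 0 else |⟪sm w A B, w i⟫|) = 0 := by
        rw [mA_congr (g := fun _ => (0 : ℝ)) fun A _ => if_pos his, mA_const]
      rw [h3]
      positivity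
    · have h3 : mA B (fun A => if i ∈ sh w B δ then 0 else |⟪sm w A B, w i⟫|) =
          mA B (fun A => |⟪w i, sm w A B⟫|) :=
        mA_congr fun A _ => by rw [if_neg his, real_inner_comm]
      rw [h3]
      refine (mA_abs_le B _).trans ?_
      rw [mA_inner_sq w (Finset.Subset.refl B) (w i), hI (w i), Real.sqrt_sq (norm_nonneg _)]
      have h4 : δ ≤ ‖w i‖ := by
        by_contra hcon
        rw [not_le] at hcon
        apply his
        unfold sh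
        rw [Finset.mem_filter]
        exact ⟨hi, hcon⟩
      rw [le_div_iff₀ hδ]
      nlinarith [norm_nonneg (w i)]
  calc _ ≤ _ := h
    _ ≤ (m : ℝ) / B.card * (c / δ) / (θ * c) := div_le_div_of_nonneg_right h1 (by positivity)
    _ = (m : ℝ) / B.card * (1 / (δ * θ)) := by field_simp

/-- PROOF. `s = sm w A B`, `s_J = sm w A J`, `S = sh w B δ`, `n = |B|`, `X A = ∑ i ∈ S, |⟪s, w i⟫|`. Exceptional pairs:
(1) `θ c ≤ |‖s‖ ^ 2 - c|` (`var_sq`): `≤ 4 / (θ² c)`;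
(2) `θ² c ≤ ‖s_J‖ ^ 2` (`ex_norm_sq`): `≤ (m/n) / θ²`;
(3) `θ √(c n) ≤ X - mean X` (`var_X`): `≤ 2 / (θ² c)`;
(4) `θ c ≤ ∑ i ∈ J ∩ S, |⟪s, w i⟫| - (m/n) X` (`ex_J_var` for every `A`; `∑ i, ⟪s, w i⟫ ^ 2 = ‖s‖ ^ 2`, `mA_norm_sq`): `≤ (m/n) / (θ² c)`;
(5) `θ c ≤ ∑ i ∈ J \ S, |⟪s, w i⟫|`: the mean is `(m/n) ∑ i ∈ B \ S, mA |⟪s, w i⟫| ≤ (m/n) ∑ i ∈ B \ S, ‖w i‖ ≤ (m/n) c / δ` (`mA_abs_le`, `mA_inner_sq`,
`‖w i‖ ≤ ‖w i‖ ^ 2 / δ`): `≤ (m/n) / (δ θ)`.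
Otherwise `Cov` at `u = s` gives `(1 - θ) c - 2 θ c < ‖s‖ ^ 2 - ‖s‖ ‖s_J‖ ≤ |⟪s, sm w A (B \ J)⟫| < ∑ i ∈ J, |⟪s, w i⟫| ≤ (m/n) (b + θ) √(c n) + 2 θ c`, against
`hmb`. -/
theorem upper_main {c : ℕ} (hc : 1 ≤ c) {w : ℕ → E c} {B : Finset ℕ} (hI : Iso w B) {m : ℕ}
    (hm : m ≤ B.card) {θ δ b : ℝ} (hθ : 0 < θ) (hθ1 : θ ≤ 1 / 10) (hδ : 0 < δ)
    (hb : mA B (fun A => ∑ i ∈ sh w B δ, |⟪sm w A B, w i⟫|) ≤ b * Real.sqrt ((c : ℝ) * B.card))
    (hmb : (m : ℝ) * (b + θ) ≤ (1 - 5 * θ) * Real.sqrt ((c : ℝ) * B.card)) :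
    fr w B 0 m ≤ 6 / (θ ^ 2 * c) + (m : ℝ) / B.card * (1 / (θ ^ 2 * c) + 1 / θ ^ 2 + 1 / (δ * θ)) := by
  have hc0 : (0 : ℝ) < c := by exact_mod_cast hc
  have hn0 : (0 : ℝ) < B.card := by exact_mod_cast upper_card hc hI
  have hS : sh w B δ ⊆ B := Finset.filter_subset _ _
  have h1 := upper_one hc hI hm hθ
  have h2 := upper_two hc hI hm hθ
  have h3 := upper_three (δ := δ) hc hI hm hθ
  have h4 := upper_four (δ := δ) hc hI hm hθ
  have h5 := upper_five hc hI hm hθ hδ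
  obtain ⟨X, hX⟩ : ∃ X : Finset ℕ → ℝ, X = fun A => ∑ i ∈ sh w B δ, |⟪sm w A B, w i⟫| := ⟨_, rfl⟩
  have hXB : ∀ A : Finset ℕ, (∑ i ∈ B, if i ∈ sh w B δ then |⟪sm w A B, w i⟫| else 0) = X A := by
    intro A
    rw [hX, ← Finset.sum_filter]
    refine Finset.sum_congr ?_ fun _ _ => rfl
    ext i
    rw [Finset.mem_filter]
    exact ⟨fun h => h.2, fun h => ⟨hS h, h⟩⟩
  have hle : fr w B 0 m ≤ pr B m (fun J A =>
      (((((θ * c) ^ 2 ≤ (‖sm w A B‖ ^ 2 - c) ^ 2) ∨ θ ^ 2 * c ≤ ‖sm w A J‖ ^ 2) ∨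
      θ ^ 2 * (c * B.card) ≤ ((∑ i ∈ sh w B δ, |⟪sm w A B, w i⟫|) -
        mA B (fun A => ∑ i ∈ sh w B δ, |⟪sm w A B, w i⟫|)) ^ 2) ∨
      (θ * c) ^ 2 ≤ ((∑ i ∈ J, if i ∈ sh w B δ then |⟪sm w A B, w i⟫| else 0) -
        (m : ℝ) / B.card * ∑ i ∈ B, if i ∈ sh w B δ then |⟪sm w A B, w i⟫| else 0) ^ 2) ∨
      θ * c ≤ ∑ i ∈ J, if i ∈ sh w B δ then 0 else |⟪sm w A B, w i⟫|) := by
    refine pr_mono fun J hJ A _ hC => ?_
    have hJB : J ⊆ B := (Finset.mem_powersetCard.1 hJ).1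
    by_contra hcon
    rw [not_or, not_or, not_or, not_or, not_le, not_le, not_le, not_le, not_le] at hcon
    obtain ⟨⟨⟨⟨e1, e2⟩, e3⟩, e4⟩, e5⟩ := hcon
    rw [hXB A] at e4
    have hX' : (∑ i ∈ sh w B δ, |⟪sm w A B, w i⟫|) = X A := by rw [hX]
    rw [hX'] at e3
    have f1 := abs_lt_of_sq_lt_sq' e1 (by positivity)
    obtain ⟨f1a, f1b⟩ := f1
    have hs2 : (1 - θ) * c < ‖sm w A B‖ ^ 2 := by linarith
    have hs2' : ‖sm w A B‖ ^ 2 < (1 + θ) * c := by linarith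
    have hs0 : sm w A B ≠ 0 := by
      intro h
      rw [h, norm_zero, zero_pow two_ne_zero] at hs2
      have : 0 < (1 - θ) * c := by
        apply mul_pos _ hc0
        linarith
      linarith
    have hcov := hC (sm w A B) hs0
    rw [zero_add] at hcov
    have hsplit : sm w A B = sm w A (B \ J) + sm w A J := by
      unfold sm
      rw [Finset.sum_sdiff hJB]
    have hin : ⟪sm w A B, sm w A (B \ J)⟫ = ‖sm w A B‖ ^ 2 - ⟪sm w A B, sm w A J⟫ := by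
      have h6 : ⟪sm w A B, sm w A B⟫ = ⟪sm w A B, sm w A (B \ J)⟫ + ⟪sm w A B, sm w A J⟫ := by
        rw [← inner_add_right, ← hsplit]
      rw [real_inner_self_eq_norm_sq] at h6
      linarith
    have hCS : ⟪sm w A B, sm w A J⟫ ≤ ‖sm w A B‖ * ‖sm w A J‖ := real_inner_le_norm _ _
    have hprod : ‖sm w A B‖ * ‖sm w A J‖ ≤ 2 * θ * c := by
      have h7 : (‖sm w A B‖ * ‖sm w A J‖) ^ 2 ≤ (2 * θ * c) ^ 2 := by
        rw [mul_pow]
        have h8 : ‖sm w A B‖ ^ 2 * ‖sm w A J‖ ^ 2 ≤ ((1 + θ) * c) * (θ ^ 2 * c) :=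
          mul_le_mul hs2'.le e2.le (sq_nonneg _) (by positivity)
        refine h8.trans ?_
        have h9 : 0 ≤ θ ^ 2 * (c : ℝ) ^ 2 := by positivity
        nlinarith
      exact le_of_sq_le_sq h7 (by positivity)
    have hL : (1 - 3 * θ) * c < |⟪sm w A B, sm w A (B \ J)⟫| := by
      refine lt_of_lt_of_le ?_ (le_abs_self _)
      rw [hin]
      linarith
    have hRs : ∑ i ∈ J, |⟪sm w A B, w i⟫| =
        (∑ i ∈ J, if i ∈ sh w B δ then |⟪sm w A B, w i⟫| else 0) +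
        ∑ i ∈ J, if i ∈ sh w B δ then 0 else |⟪sm w A B, w i⟫| := by
      rw [← Finset.sum_add_distrib]
      refine Finset.sum_congr rfl fun i _ => ?_
      split_ifs
      · rw [add_zero]
      · rw [zero_add]
    have f4 := (abs_lt_of_sq_lt_sq' e4 (by positivity)).2
    have hsq0 : 0 ≤ Real.sqrt ((c : ℝ) * B.card) := Real.sqrt_nonneg _
    have hsq : Real.sqrt ((c : ℝ) * B.card) ^ 2 = (c : ℝ) * B.card := Real.sq_sqrt (by positivity)
    have f3 : X A - mA B (fun A => ∑ i ∈ sh w B δ, |⟪sm w A B, w i⟫|) <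
        θ * Real.sqrt ((c : ℝ) * B.card) := by
      have h6 : (X A - mA B (fun A => ∑ i ∈ sh w B δ, |⟪sm w A B, w i⟫|)) ^ 2 <
          (θ * Real.sqrt ((c : ℝ) * B.card)) ^ 2 := by
        rw [mul_pow, hsq]
        exact e3
      exact (abs_lt_of_sq_lt_sq' h6 (by positivity)).2
    have hXle : X A ≤ (b + θ) * Real.sqrt ((c : ℝ) * B.card) := by linarith
    have hmX : (m : ℝ) / B.card * X A ≤ (1 - 5 * θ) * c := by
      have h6 : (m : ℝ) * X A ≤ (1 - 5 * θ) * ((c : ℝ) * B.card) := by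
        calc (m : ℝ) * X A ≤ m * ((b + θ) * Real.sqrt ((c : ℝ) * B.card)) :=
              mul_le_mul_of_nonneg_left hXle (Nat.cast_nonneg m)
          _ = (m * (b + θ)) * Real.sqrt ((c : ℝ) * B.card) := by ring
          _ ≤ ((1 - 5 * θ) * Real.sqrt ((c : ℝ) * B.card)) * Real.sqrt ((c : ℝ) * B.card) :=
              mul_le_mul_of_nonneg_right hmb hsq0
          _ = (1 - 5 * θ) * Real.sqrt ((c : ℝ) * B.card) ^ 2 := by ring
          _ = (1 - 5 * θ) * ((c : ℝ) * B.card) := by rw [hsq]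
      rw [div_mul_eq_mul_div, div_le_iff₀ hn0]
      linarith
    rw [hRs] at hcov
    linarith
  refine hle.trans ?_
  refine (pr_or B m _ _).trans ?_
  have g4 := (pr_or B m (fun J A =>
      ((((θ * c) ^ 2 ≤ (‖sm w A B‖ ^ 2 - c) ^ 2) ∨ θ ^ 2 * c ≤ ‖sm w A J‖ ^ 2) ∨
      θ ^ 2 * (c * B.card) ≤ ((∑ i ∈ sh w B δ, |⟪sm w A B, w i⟫|) -
        mA B (fun A => ∑ i ∈ sh w B δ, |⟪sm w A B, w i⟫|)) ^ 2))
      (fun J A => (θ * c) ^ 2 ≤ ((∑ i ∈ J, if i ∈ sh w B δ then |⟪sm w A B, w i⟫| else 0) -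
        (m : ℝ) / B.card * ∑ i ∈ B, if i ∈ sh w B δ then |⟪sm w A B, w i⟫| else 0) ^ 2))
  have g3 := (pr_or B m (fun J A =>
      (((θ * c) ^ 2 ≤ (‖sm w A B‖ ^ 2 - c) ^ 2) ∨ θ ^ 2 * c ≤ ‖sm w A J‖ ^ 2))
      (fun _ A => θ ^ 2 * (c * B.card) ≤ ((∑ i ∈ sh w B δ, |⟪sm w A B, w i⟫|) -
        mA B (fun A => ∑ i ∈ sh w B δ, |⟪sm w A B, w i⟫|)) ^ 2))
  have g2 := (pr_or B m (fun _ A => ((θ * c) ^ 2 ≤ (‖sm w A B‖ ^ 2 - c) ^ 2))
      (fun J A => θ ^ 2 * c ≤ ‖sm w A J‖ ^ 2))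
  have hfin : 6 / (θ ^ 2 * (c : ℝ)) = 4 / (θ ^ 2 * c) + 2 / (θ ^ 2 * c) := by ring
  rw [hfin]
  linarith

/-- PROOF: if `w` does not span on `B`: `fr_eq_zero`. Otherwise `exists_iso`, `fr_map`, `mean_X`, `upper_main`; `m / n ≤ √(π c / (2 n)) ≤ √(π η / 2)`. -/
theorem upperG {ε : ℝ} (hε : 0 < ε) : ∃ (C : ℕ) (η : ℝ), 0 < η ∧ ∀ c m : ℕ, ∀ B : Finset ℕ,
    C ≤ c → (c : ℝ) ≤ η * B.card →
      (m : ℝ) ≤ (1 - ε) * Real.sqrt (Real.pi * c * B.card / 2) →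
        ∀ w : ℕ → E c, fr w B 0 m ≤ ε := by
  rcases le_or_gt 1 ε with hε1 | hε1
  · refine ⟨0, 1, one_pos, fun c m B _ _ _ w => ?_⟩
    exact (pr_le_one _ _ _).trans hε1
  obtain ⟨θ, hθdef⟩ : ∃ θ : ℝ, θ = ε / 10 := ⟨_, rfl⟩
  have hθ : 0 < θ := by rw [hθdef]; positivity
  have hθ1 : θ ≤ 1 / 10 := by rw [hθdef]; linarith
  obtain ⟨δ, hδ, hmean⟩ := mean_X hθ
  obtain ⟨K, hK⟩ : ∃ K : ℝ, K = 1 / θ ^ 2 + 1 / θ ^ 2 + 1 / (δ * θ) := ⟨_, rfl⟩
  have hθ2 : (1 : ℝ) ≤ 1 / θ ^ 2 := by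
    rw [le_div_iff₀ (by positivity)]
    nlinarith
  have hK1 : 1 ≤ K := by
    have : 0 < 1 / (δ * θ) := by positivity
    rw [hK]
    linarith
  have hK0 : 0 < K := by linarith
  obtain ⟨ρ, hρ⟩ : ∃ ρ : ℝ, ρ = ε / (2 * K) := ⟨_, rfl⟩
  have hρ0 : 0 < ρ := by rw [hρ]; positivity
  have hρ1 : ρ ≤ 1 := by
    rw [hρ, div_le_one (by positivity)]
    linarith
  obtain ⟨C, hC⟩ := exists_nat_ge (12 / (θ ^ 2 * ε) + 1)
  refine ⟨C, ρ ^ 2 / 2, by positivity, fun c m B hCc hcB hmB w => ?_⟩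
  have hCc' : (C : ℝ) ≤ c := by exact_mod_cast hCc
  have hq : 0 < 12 / (θ ^ 2 * ε) := by positivity
  have hc1 : (1 : ℝ) ≤ c := by linarith
  have hc0 : (0 : ℝ) < c := by linarith
  have hcN : 1 ≤ c := by exact_mod_cast hc1
  have hn0 : (0 : ℝ) < B.card := by
    by_contra h
    rw [not_lt] at h
    have h1 : ρ ^ 2 / 2 * (B.card : ℝ) ≤ 0 := mul_nonpos_of_nonneg_of_nonpos (by positivity) h
    linarith
  have hpi := Real.pi_pos
  have hpi4 : Real.pi ≤ 4 := Real.pi_le_four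
  have hmρ : (m : ℝ) ≤ ρ * B.card := by
    have h1 : Real.sqrt (Real.pi * c * B.card / 2) ≤ ρ * B.card := by
      apply Real.sqrt_le_iff.mpr
      refine ⟨by positivity, ?_⟩
      have h2 : Real.pi * c ≤ 4 * (ρ ^ 2 / 2 * B.card) :=
        mul_le_mul hpi4 hcB hc0.le (by norm_num)
      have h3 : Real.pi * c * B.card ≤ 4 * (ρ ^ 2 / 2 * B.card) * B.card :=
        mul_le_mul_of_nonneg_right h2 hn0.le
      nlinarith
    have h2 : (1 - ε) * Real.sqrt (Real.pi * c * B.card / 2) ≤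
        1 * Real.sqrt (Real.pi * c * B.card / 2) :=
      mul_le_mul_of_nonneg_right (by linarith) (Real.sqrt_nonneg _)
    linarith
  have hmn : m ≤ B.card := by
    have h1 : (m : ℝ) ≤ B.card := by
      refine hmρ.trans ?_
      nlinarith
    exact_mod_cast h1
  by_cases hspan : ∀ u : E c, u ≠ 0 → ∃ i ∈ B, ⟪u, w i⟫ ≠ 0
  · obtain ⟨Φ, _, _, hI⟩ := exists_iso w B hspan
    have hfr := fr_map w B 0 m Φ
    rw [map_zero] at hfr
    rw [← hfr]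
    have hb := hmean c (fun i => Φ (w i)) B hI
    have hmb : (m : ℝ) * ((Real.sqrt (2 / Real.pi) + θ) + θ) ≤
        (1 - 5 * θ) * Real.sqrt ((c : ℝ) * B.card) := by
      obtain ⟨r, hr⟩ : ∃ r : ℝ, r = Real.sqrt (Real.pi / 2) := ⟨_, rfl⟩
      have hr0 : 0 ≤ r := by rw [hr]; exact Real.sqrt_nonneg _
      have hr13 : r ≤ 1.3 := by
        rw [hr]
        apply Real.sqrt_le_iff.mpr
        refine ⟨by norm_num, ?_⟩
        have := Real.pi_lt_d2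
        norm_num at this ⊢
        linarith
      have hrs : r * Real.sqrt (2 / Real.pi) = 1 := by
        rw [hr, ← Real.sqrt_mul (by positivity)]
        have : Real.pi / 2 * (2 / Real.pi) = 1 := by field_simp
        rw [this, Real.sqrt_one]
      have hsq : Real.sqrt (Real.pi * c * B.card / 2) = r * Real.sqrt ((c : ℝ) * B.card) := by
        rw [hr, ← Real.sqrt_mul (by positivity)]
        congr 1
        ring
      rw [hsq] at hmB
      have hsq0 : 0 ≤ Real.sqrt ((c : ℝ) * B.card) := Real.sqrt_nonneg _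
      have h1 : 0 ≤ (Real.sqrt (2 / Real.pi) + θ) + θ := by positivity
      calc (m : ℝ) * ((Real.sqrt (2 / Real.pi) + θ) + θ)
          ≤ ((1 - ε) * (r * Real.sqrt ((c : ℝ) * B.card))) *
              ((Real.sqrt (2 / Real.pi) + θ) + θ) := mul_le_mul_of_nonneg_right hmB h1
        _ = (1 - ε) * (r * Real.sqrt (2 / Real.pi) + 2 * θ * r) *
              Real.sqrt ((c : ℝ) * B.card) := by ring
        _ = (1 - ε) * (1 + 2 * θ * r) * Real.sqrt ((c : ℝ) * B.card) := by rw [hrs]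
        _ ≤ (1 - 5 * θ) * Real.sqrt ((c : ℝ) * B.card) := by
            refine mul_le_mul_of_nonneg_right ?_ hsq0
            have h2 : ε = 10 * θ := by rw [hθdef]; ring
            have h3 : θ * r ≤ θ * 1.3 := mul_le_mul_of_nonneg_left hr13 hθ.le
            have h4 : 0 ≤ θ * r := mul_nonneg hθ.le hr0
            rw [h2]
            nlinarith
    refine (upper_main hcN hI hmn hθ hθ1 hδ hb hmb).trans ?_
    have e1 : 6 / (θ ^ 2 * (c : ℝ)) ≤ ε / 2 := by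
      rw [div_le_iff₀ (by positivity)]
      have h1 : 12 / (θ ^ 2 * ε) ≤ c := by linarith
      rw [div_le_iff₀ (by positivity)] at h1
      linarith
    have e2 : 1 / (θ ^ 2 * (c : ℝ)) + 1 / θ ^ 2 + 1 / (δ * θ) ≤ K := by
      have h1 : 1 / (θ ^ 2 * (c : ℝ)) ≤ 1 / θ ^ 2 := by
        apply one_div_le_one_div_of_le (by positivity)
        have : 0 < θ ^ 2 := by positivity
        nlinarith
      rw [hK]
      linarith
    have e3 : (m : ℝ) / B.card ≤ ρ := by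
      rw [div_le_iff₀ hn0]
      exact hmρ
    have e4 : (m : ℝ) / B.card * (1 / (θ ^ 2 * (c : ℝ)) + 1 / θ ^ 2 + 1 / (δ * θ)) ≤ ε / 2 := by
      calc _ ≤ ρ * K := mul_le_mul e3 e2 (by positivity) hρ0.le
        _ = ε / 2 := by rw [hρ]; field_simp
    linarith
  · push Not at hspan
    obtain ⟨u, hu, hz⟩ := hspan
    rw [fr_eq_zero 0 m hu hz]
    exact hε.le

end Pool.Agent.H.MP_4bcbbd_co.G
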