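import Pool.Agent.H.MP_4bcbbd_co.h39g.Cube
import Pool.Agent.H.MP_4bcbbd_co.h39f.Norm
import Pool.Agent.H.MP_4bcbbd_co.h39f.Rad

/-!
MP_4bcbbd_co, theorem G: moments of the signed sum of an isotropic family.
-/

set_option autoImplicit false

namespace Pool.Agent.H.MP_4bcbbd_co.G

open scoped BigOperators RealInnerProductSpace
open Pool.Agent.H.MP_4bcbbd_co.F

/-- the other signs do not change. -/
theorem varX_sg_fl {k j : ℕ} (h : j ≠ k) {A : Finset ℕ} : sg (fl k A) j = sg A j := by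
  unfold sg fl
  by_cases hk : k ∈ A
  · rw [if_pos hk]
    by_cases hj : j ∈ A
    · rw [if_pos hj, if_pos (Finset.mem_erase.2 ⟨h, hj⟩)]
    · rw [if_neg hj, if_neg fun h2 => hj (Finset.mem_of_mem_erase h2)]
  · rw [if_neg hk]
    by_cases hj : j ∈ A
    · rw [if_pos hj, if_pos (Finset.mem_insert_of_mem hj)]
    · rw [if_neg hj, if_neg fun h2 => ?_]
      rcases Finset.mem_insert.1 h2 with h3 | h3
      · exact h h3
      · exact hj h3

/-- changing a sign. -/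
theorem sm_fl {c : ℕ} (w : ℕ → E c) {B : Finset ℕ} {k : ℕ} (hk : k ∈ B) (A : Finset ℕ) :
    sm w (fl k A) B = sm w A B - (2 * sg A k) • w k := by
  have h1 : sg (fl k A) k = - sg A k := by
    unfold sg fl
    by_cases h : k ∈ A
    · rw [if_pos h, if_pos h, if_neg (Finset.notMem_erase k A)]
    · rw [if_neg h, if_neg h, if_pos (Finset.mem_insert_self k A), neg_neg]
  have h2 : ∀ j ∈ B.erase k, sg (fl k A) j • w j = sg A j • w j := by
    intro j hj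
    rw [varX_sg_fl (Finset.ne_of_mem_erase hj)]
  unfold sm
  rw [← Finset.add_sum_erase B _ hk, ← Finset.add_sum_erase B (fun i => sg A i • w i) hk, h1,
    Finset.sum_congr rfl h2, two_mul, add_smul, neg_smul]
  abel

/-- PROOF: `rad_sq` for `a i = ⟪v, w i⟫`. -/
theorem mA_inner_sq {c : ℕ} (w : ℕ → E c) {S B : Finset ℕ} (hS : S ⊆ B) (v : E c) :
    mA B (fun A => ⟪v, sm w A S⟫ ^ 2) = ∑ i ∈ S, ⟪v, w i⟫ ^ 2 := by
  unfold mA
  have h : ∀ A ∈ B.powerset, ⟪v, sm w A S⟫ ^ 2 = (∑ i ∈ S, sg A i * ⟪v, w i⟫) ^ 2 := fun A _ => by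
    rw [inner_sm]
  rw [Finset.sum_congr rfl h, rad_sq hS (fun i => ⟪v, w i⟫)]
  have h2 : (0 : ℝ) < 2 ^ B.card := by positivity
  field_simp

/-- PROOF: `mA_inner_sq` over an orthonormal basis (or `fl`). -/
theorem mA_norm_sq {c : ℕ} (w : ℕ → E c) {S B : Finset ℕ} (hS : S ⊆ B) :
    mA B (fun A => ‖sm w A S‖ ^ 2) = ∑ i ∈ S, ‖w i‖ ^ 2 := by
  have h1 : ∀ x : E c, ‖x‖ ^ 2 = ∑ j : Fin c, ⟪EuclideanSpace.basisFun (Fin c) ℝ j, x⟫ ^ 2 := by
    intro x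
    rw [← OrthonormalBasis.sum_sq_norm_inner_right (EuclideanSpace.basisFun (Fin c) ℝ) x]
    exact Finset.sum_congr rfl fun j _ => by rw [Real.norm_eq_abs, sq_abs]
  have h2 : mA B (fun A => ‖sm w A S‖ ^ 2) =
      mA B (fun A => ∑ j : Fin c, ⟪EuclideanSpace.basisFun (Fin c) ℝ j, sm w A S⟫ ^ 2) :=
    mA_congr fun A _ => h1 _
  rw [h2, mA_sum (Finset.univ : Finset (Fin c)) B
    (fun j A => ⟪EuclideanSpace.basisFun (Fin c) ℝ j, sm w A S⟫ ^ 2),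
    Finset.sum_congr rfl fun j _ => mA_inner_sq w hS (EuclideanSpace.basisFun (Fin c) ℝ j),
    Finset.sum_comm]
  exact Finset.sum_congr rfl fun i _ => (h1 _).symm

/-- the mean over `J` and `A`. PROOF: for fixed `J` `mA_norm_sq`; then `ex_J`, `Iso.sum_norm`. -/
theorem ex_norm_sq {c : ℕ} {w : ℕ → E c} {B : Finset ℕ} (hI : Iso w B) {m : ℕ}
    (hm : m ≤ B.card) : ex B m (fun J A => ‖sm w A J‖ ^ 2) = (m : ℝ) / B.card * c := by
  have h : ex B m (fun J A => ‖sm w A J‖ ^ 2) = ex B m (fun J _ => ∑ i ∈ J, ‖w i‖ ^ 2) := by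
    unfold ex
    congr 1
    refine Finset.sum_congr rfl fun J hJ => ?_
    have hJB : J ⊆ B := (Finset.mem_powersetCard.1 hJ).1
    have h1 := mA_norm_sq w hJB
    unfold mA at h1
    have h2 : (0 : ℝ) < 2 ^ B.card := by positivity
    rw [div_eq_iff h2.ne'] at h1
    rw [h1, Finset.sum_const, Finset.card_powerset, nsmul_eq_mul, mul_comm]
    push_cast
    rfl
  rw [h, ex_J hm fun i => ‖w i‖ ^ 2, hI.sum_norm]

/-- PROOF: `efron` for `f A = ‖sm w A B‖ ^ 2` (mean `c`: `mA_norm_sq`, `Iso.sum_norm`): `f A - f (fl k A) = 4 sg A k ⟪s, w k⟫ - 4 ‖w k‖ ^ 2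
= 4 sg A k ⟪sm w A (B.erase k), w k⟫`, whose mean square is `16 ∑_{j ≠ k} ⟪w j, w k⟫ ^ 2 ≤ 16 ‖w k‖ ^ 2`. -/
theorem var_sq {c : ℕ} {w : ℕ → E c} {B : Finset ℕ} (hI : Iso w B) :
    mA B (fun A => (‖sm w A B‖ ^ 2 - c) ^ 2) ≤ 4 * c := by
  have hc : mA B (fun A => ‖sm w A B‖ ^ 2) = c := by
    rw [mA_norm_sq w (Finset.Subset.refl B), hI.sum_norm]
  have h := efron B (fun A => ‖sm w A B‖ ^ 2)
  rw [hc] at h
  refine h.trans ?_
  have h1 : ∀ k ∈ B, mA B (fun A => (‖sm w A B‖ ^ 2 - ‖sm w (fl k A) B‖ ^ 2) ^ 2) ≤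
      16 * ‖w k‖ ^ 2 := by
    intro k hk
    have h2 : mA B (fun A => (‖sm w A B‖ ^ 2 - ‖sm w (fl k A) B‖ ^ 2) ^ 2) =
        mA B (fun A => 16 * ⟪w k, sm w A (B.erase k)⟫ ^ 2) := by
      refine mA_congr fun A _ => ?_
      have h3 : sm w A B = sg A k • w k + sm w A (B.erase k) := by
        unfold sm
        rw [← Finset.add_sum_erase B _ hk]
      have h4 : sm w (fl k A) B = -(sg A k • w k) + sm w A (B.erase k) := by
        rw [sm_fl w hk A, h3, two_mul, add_smul]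
        abel
      rw [h3, h4, norm_add_sq_real, norm_add_sq_real, norm_neg, inner_neg_left,
        real_inner_smul_left]
      have h5 := sg_mul_self A k
      have h6 : (‖sg A k • w k‖ ^ 2 + 2 * (sg A k * ⟪w k, sm w A (B.erase k)⟫) +
          ‖sm w A (B.erase k)‖ ^ 2 -
          (‖sg A k • w k‖ ^ 2 + 2 * -(sg A k * ⟪w k, sm w A (B.erase k)⟫) +
            ‖sm w A (B.erase k)‖ ^ 2)) ^ 2 =
          16 * (sg A k * sg A k) * ⟪w k, sm w A (B.erase k)⟫ ^ 2 := by ring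
      rw [h6, h5]
      ring
    rw [h2, mA_mul, mA_inner_sq w (Finset.erase_subset k B) (w k)]
    have h7 : ∑ i ∈ B.erase k, ⟪w k, w i⟫ ^ 2 ≤ ‖w k‖ ^ 2 := by
      rw [← hI (w k)]
      exact Finset.sum_le_sum_of_subset_of_nonneg (Finset.erase_subset k B)
        fun i _ _ => sq_nonneg _
    linarith
  have h8 := Finset.sum_le_sum h1
  rw [← Finset.mul_sum, hI.sum_norm] at h8
  linarith

/-- the sign of `⟪s, w i⟫`. -/
noncomputable def varX_e {c : ℕ} (w : ℕ → E c) (s : E c) (i : ℕ) : ℝ :=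
  if 0 ≤ ⟪s, w i⟫ then 1 else -1

theorem varX_abs_e {c : ℕ} (w : ℕ → E c) (s : E c) (i : ℕ) : |varX_e w s i| = 1 := by
  unfold varX_e
  by_cases h : 0 ≤ ⟪s, w i⟫
  · rw [if_pos h, abs_one]
  · rw [if_neg h, abs_neg, abs_one]

/-- the signed sum with these signs. -/
noncomputable def varX_v {c : ℕ} (w : ℕ → E c) (S : Finset ℕ) (s : E c) : E c :=
  ∑ i ∈ S, varX_e w s i • w i

theorem varX_v_norm {c : ℕ} {w : ℕ → E c} {B S : Finset ℕ} (hI : Iso w B) (hS : S ⊆ B) (s : E c) :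
    ‖varX_v w S s‖ ^ 2 ≤ S.card := by
  set v := varX_v w S s with hv
  have h1 : ‖v‖ ^ 2 = ∑ i ∈ S, varX_e w s i * ⟪v, w i⟫ := by
    rw [← real_inner_self_eq_norm_sq]
    have : ⟪v, v⟫ = ⟪v, ∑ i ∈ S, varX_e w s i • w i⟫ := by
      rw [hv]
      rfl
    rw [this, inner_sum]
    exact Finset.sum_congr rfl fun i _ => by rw [real_inner_smul_right]
  have h2 : (∑ i ∈ S, varX_e w s i * ⟪v, w i⟫) ^ 2 ≤
      (S.card : ℝ) * ∑ i ∈ S, (varX_e w s i * ⟪v, w i⟫) ^ 2 := sq_sum_le_card_mul_sum_sq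
  have h3 : ∑ i ∈ S, (varX_e w s i * ⟪v, w i⟫) ^ 2 ≤ ‖v‖ ^ 2 := by
    have h4 : ∀ i ∈ S, (varX_e w s i * ⟪v, w i⟫) ^ 2 = ⟪v, w i⟫ ^ 2 := by
      intro i _
      rw [mul_pow, ← sq_abs (varX_e w s i), varX_abs_e, one_pow, one_mul]
    rw [Finset.sum_congr rfl h4, ← hI v]
    exact Finset.sum_le_sum_of_subset_of_nonneg hS fun i _ _ => sq_nonneg _
  rw [← h1] at h2
  have h5 : (‖v‖ ^ 2) ^ 2 ≤ (S.card : ℝ) * ‖v‖ ^ 2 :=
    h2.trans (mul_le_mul_of_nonneg_left h3 (Nat.cast_nonneg _))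
  rcases eq_or_lt_of_le (sq_nonneg ‖v‖) with h6 | h6
  · rw [← h6]
    exact Nat.cast_nonneg _
  · rw [sq (‖v‖ ^ 2)] at h5
    exact le_of_mul_le_mul_right h5 h6

/-- PROOF: `efron_pos` for `f A = ∑ i ∈ S, |⟪s, w i⟫|`, `s = sm w A B`. Let `e i` be the sign of `⟪s, w i⟫` and `v = ∑ i ∈ S, e i • w i`. Then
`f (fl k A) ≥ ∑ i ∈ S, e i ⟪s - 2 sg A k • w k, w i⟫`, so `f A - f (fl k A) ≤ 2 sg A k ⟪w k, v⟫ =: g k A`; `∑ k ∈ B, (g k A) ^ 2 = 4 ‖v‖ ^ 2`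
(`Iso`), and `‖v‖ ^ 2 ≤ |S|` because `‖v‖ ^ 2 = ∑ i ∈ S, e i ⟪v, w i⟫ ≤ √|S| ‖v‖`. -/
theorem var_X {c : ℕ} {w : ℕ → E c} {B S : Finset ℕ} (hI : Iso w B) (hS : S ⊆ B) :
    mA B (fun A => ((∑ i ∈ S, |⟪sm w A B, w i⟫|) -
      mA B (fun A => ∑ i ∈ S, |⟪sm w A B, w i⟫|)) ^ 2) ≤ 2 * B.card := by
  have h := efron_pos (B := B) (f := fun A => ∑ i ∈ S, |⟪sm w A B, w i⟫|)
    (g := fun k A => 2 * sg A k * ⟪varX_v w S (sm w A B), w k⟫) ?_
  · refine h.trans ?_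
    rw [← mA_sum B B (fun k A => (2 * sg A k * ⟪varX_v w S (sm w A B), w k⟫) ^ 2)]
    have h1 : mA B (fun A => ∑ k ∈ B, (2 * sg A k * ⟪varX_v w S (sm w A B), w k⟫) ^ 2) ≤
        mA B (fun _ => 4 * (B.card : ℝ)) := by
      refine mA_mono fun A _ => ?_
      have h2 : ∀ k ∈ B, (2 * sg A k * ⟪varX_v w S (sm w A B), w k⟫) ^ 2 =
          4 * ⟪varX_v w S (sm w A B), w k⟫ ^ 2 := by
        intro k _
        have h5 := sg_mul_self A k
        have h6 : (2 * sg A k * ⟪varX_v w S (sm w A B), w k⟫) ^ 2 =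
            4 * (sg A k * sg A k) * ⟪varX_v w S (sm w A B), w k⟫ ^ 2 := by ring
        rw [h6, h5]
        ring
      rw [Finset.sum_congr rfl h2, ← Finset.mul_sum, hI]
      have h3 := varX_v_norm hI hS (sm w A B)
      have h4 : (S.card : ℝ) ≤ B.card := by exact_mod_cast Finset.card_le_card hS
      linarith
    rw [mA_const] at h1
    linarith
  · intro k hk A _
    have h1 : ∀ i ∈ S, |⟪sm w A B, w i⟫| - |⟪sm w (fl k A) B, w i⟫| ≤
        varX_e w (sm w A B) i * (2 * sg A k * ⟪w k, w i⟫) := by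
      intro i _
      have h2 : ⟪sm w (fl k A) B, w i⟫ = ⟪sm w A B, w i⟫ - 2 * sg A k * ⟪w k, w i⟫ := by
        rw [sm_fl w hk A, inner_sub_left, real_inner_smul_left]
      have h3 : |⟪sm w A B, w i⟫| = varX_e w (sm w A B) i * ⟪sm w A B, w i⟫ := by
        unfold varX_e
        by_cases h0 : 0 ≤ ⟪sm w A B, w i⟫
        · rw [if_pos h0, abs_of_nonneg h0, one_mul]
        · rw [if_neg h0, abs_of_neg (not_le.1 h0), neg_one_mul]
      have h4 : varX_e w (sm w A B) i * ⟪sm w (fl k A) B, w i⟫ ≤ |⟪sm w (fl k A) B, w i⟫| := by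
        refine (le_abs_self _).trans (le_of_eq ?_)
        rw [abs_mul, varX_abs_e, one_mul]
      rw [h2] at h4
      rw [h2, h3]
      nlinarith
    have h5 := Finset.sum_le_sum h1
    rw [Finset.sum_sub_distrib] at h5
    refine h5.trans (le_of_eq ?_)
    unfold varX_v
    rw [sum_inner, Finset.mul_sum]
    refine Finset.sum_congr rfl fun i _ => ?_
    rw [real_inner_smul_left, real_inner_comm (w i) (w k)]
    ring

end Pool.Agent.H.MP_4bcbbd_co.G
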